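import Mathlib

/-!
Definitions for the question of isometric extensions over intermediate W*-dynamical systems:
systems in their GNS representation, subsystems, the basic construction, its trace, the
`U`-`μ̄`-modules, and isometric extensions.
-/

set_option autoImplicit false
open scoped InnerProductSpace ENNReal NNReal

namespace Pool.Agent.Zk50.IE

variable {H : Type*} [NormedAddCommGroup H] [InnerProductSpace ℂ H] [CompleteSpace H]

/-- the operator `U a U*` (so `a ↦ U a U*` is the automorphism `α`) -/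
noncomputable def conj (U : H ≃ₗᵢ[ℂ] H) (a : H →L[ℂ] H) : H →L[ℂ] H :=
  (U.toContinuousLinearEquiv : H →L[ℂ] H) ∘L a ∘L (U.symm.toContinuousLinearEquiv : H →L[ℂ] H)

/-- A system `(A, μ, α)` in its GNS representation: `A` is a von Neumann algebra on `H`, `Ω` a cyclic
and separating unit vector with `μ(a) = ⟪Ω, a Ω⟫` a trace on `A`, `U` a unitary with `U Ω = Ω` such
that `α(a) = U a U*` is an automorphism of `A`, and `J` the modular conjugation, `J a Ω = a* Ω`. -/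
structure IsSystem (A : VonNeumannAlgebra H) (Ω : H) (U : H ≃ₗᵢ[ℂ] H) (J : H ≃ₗᵢ⋆[ℂ] H) :
    Prop where
  unit : ‖Ω‖ = 1
  trace : ∀ a ∈ A, ∀ b ∈ A, ⟪Ω, (a * b) Ω⟫_ℂ = ⟪Ω, (b * a) Ω⟫_ℂ
  cyclic : Dense {ξ : H | ∃ a ∈ A, ξ = a Ω}
  separating : ∀ a ∈ A, a Ω = 0 → a = 0
  fixed : U Ω = Ω
  inv : ∀ a : H →L[ℂ] H, conj U a ∈ A ↔ a ∈ A
  modular : ∀ a ∈ A, J (a Ω) = (star a) Ω

/-- A subsystem: a von Neumann subalgebra `F` of `A` with `α(F) = F`. -/
structure IsSubsystem (A : VonNeumannAlgebra H) (U : H ≃ₗᵢ[ℂ] H) (F : VonNeumannAlgebra H) :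
    Prop where
  le : ∀ a ∈ F, a ∈ A
  inv : ∀ a : H →L[ℂ] H, conj U a ∈ F ↔ a ∈ F

/-- the subspace `F Ω` -/
def orb (F : VonNeumannAlgebra H) (Ω : H) : Submodule ℂ H where
  carrier := {ξ | ∃ q ∈ F, ξ = q Ω}
  add_mem' := by
    rintro _ _ ⟨a, ha, rfl⟩ ⟨b, hb, rfl⟩
    exact ⟨a + b, add_mem ha hb, rfl⟩
  zero_mem' := ⟨0, zero_mem F, rfl⟩
  smul_mem' := by
    rintro c _ ⟨a, ha, rfl⟩
    exact ⟨c • a, F.toStarSubalgebra.smul_mem ha c, rfl⟩

/-- the closed subspace `H_F`, the closure of `F Ω` -/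
def HH (F : VonNeumannAlgebra H) (Ω : H) : Submodule ℂ H := (orb F Ω).topologicalClosure

/-- the orthogonal projection onto the closure of a subspace `V` (onto `V` when `V` is closed) -/
noncomputable def pr (V : Submodule ℂ H) : H →L[ℂ] H := V.topologicalClosure.starProjection

/-- the projection `e_F` onto `H_F` -/
noncomputable def ee (F : VonNeumannAlgebra H) (Ω : H) : H →L[ℂ] H := pr (orb F Ω)

/-- the basic construction `⟨A, e_F⟩`: the von Neumann algebra generated by `A` and `e_F`, i.e. the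
double commutant of `A ∪ {e_F}` -/
noncomputable def basic (A F : VonNeumannAlgebra H) (Ω : H) : VonNeumannAlgebra H where
  toStarSubalgebra := StarSubalgebra.centralizer ℂ
    (StarSubalgebra.centralizer ℂ ((A : Set (H →L[ℂ] H)) ∪ {ee F Ω}) : Set (H →L[ℂ] H))
  centralizer_centralizer' := by
    change Set.centralizer (Set.centralizer (Set.centralizer _)) = Set.centralizer _
    rw [Set.centralizer_centralizer_centralizer]

/-- `τ` is a faithful normal semifinite trace on the positive part of the von Neumann algebra `M`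
(its values outside of the positive part of `M` play no role) -/
structure IsTrace (M : VonNeumannAlgebra H) (τ : (H →L[ℂ] H) → ℝ≥0∞) : Prop where
  add : ∀ x ∈ M, ∀ y ∈ M, 0 ≤ x → 0 ≤ y → τ (x + y) = τ x + τ y
  smul : ∀ c : ℝ≥0, ∀ x ∈ M, 0 ≤ x → τ (((c : ℝ) : ℂ) • x) = c * τ x
  trace : ∀ x ∈ M, τ (star x * x) = τ (x * star x)
  faithful : ∀ x ∈ M, 0 ≤ x → τ x = 0 → x = 0
  normal : ∀ S : Set (H →L[ℂ] H), S.Nonempty → DirectedOn (· ≤ ·) S → (∀ x ∈ S, x ∈ M ∧ 0 ≤ x) →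
    ∀ y ∈ M, IsLUB S y → τ y = ⨆ x ∈ S, τ x
  semifinite : ∀ x ∈ M, 0 ≤ x → x ≠ 0 → ∃ y ∈ M, 0 ≤ y ∧ y ≤ x ∧ y ≠ 0 ∧ τ y < ∞

/-- `τ` is the trace `μ̄` of the basic construction `⟨A, e_F⟩`: the faithful normal semifinite trace
with `μ̄(a e_F a*) = μ(a a*)` for `a ∈ A` (equivalently, by polarization, `μ̄(a e_F b) = μ(a b)`) -/
structure IsBasicTrace (A F : VonNeumannAlgebra H) (Ω : H) (τ : (H →L[ℂ] H) → ℝ≥0∞) : Prop where
  isTrace : IsTrace (basic A F Ω) τ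
  norm : ∀ a ∈ A, τ (a * ee F Ω * star a) = ENNReal.ofReal (⟪Ω, (a * star a) Ω⟫_ℂ).re

/-- `V` is a `U`-`μ̄`-module for `F`: a closed subspace of `H ⊖ H_F` with `J f* J V ⊆ V` for all
`f ∈ F`, with `U V = V` and `μ̄(P_V) < ∞` -/
structure IsModule (F : VonNeumannAlgebra H) (Ω : H) (U : H ≃ₗᵢ[ℂ] H) (J : H ≃ₗᵢ⋆[ℂ] H)
    (τ : (H →L[ℂ] H) → ℝ≥0∞) (V : Submodule ℂ H) : Prop where
  closed : IsClosed (V : Set H)
  right : ∀ f ∈ F, ∀ v ∈ V, J ((star f) (J v)) ∈ V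
  perp : V ≤ (HH F Ω)ᗮ
  inv : ((fun v => U v) '' (V : Set H)) = V
  fin : τ (pr V) < ∞

/-- `A` is an isometric extension of `F`: the closed linear span of the `U`-`μ̄`-modules is
`H ⊖ H_F` -/
def IsIsometric (F : VonNeumannAlgebra H) (Ω : H) (U : H ≃ₗᵢ[ℂ] H) (J : H ≃ₗᵢ⋆[ℂ] H)
    (τ : (H →L[ℂ] H) → ℝ≥0∞) : Prop :=
  (sSup {V : Submodule ℂ H | IsModule F Ω U J τ V}).topologicalClosure = (HH F Ω)ᗮ

end Pool.Agent.Zk50.IE
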