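import Mathlib

/-!
Graph lemma, closed invariant subspaces and polar decomposition in a concrete von Neumann algebra.
(The statements and proofs of this file are taken over from `Pool/Agent/S06019.lean`, with an extra
clause in the polar decomposition.)
-/

set_option autoImplicit false
open ContinuousLinearMap

namespace Pool.Agent.Zk50.IE

variable {H : Type*} [NormedAddCommGroup H] [InnerProductSpace ℂ H] [CompleteSpace H]


theorem mulA (a b : H →L[ℂ] H) (x : H) : (a * b) x = a (b x) := rfl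

theorem mem_iff_comm (M : VonNeumannAlgebra H) (x : H →L[ℂ] H) :
    x ∈ M ↔ ∀ y ∈ M.commutant, y * x = x * y := by
  conv_lhs => rw [← M.commutant_commutant]
  exact VonNeumannAlgebra.mem_commutant_iff

theorem ext_of_inner_self {a b : H →L[ℂ] H} (h : ∀ x, inner ℂ (a x) (x) = inner ℂ (b x) (x)) : a = b := by
  have h1 : ∀ x, inner ℂ ((a - b) x) (x) = 0 := fun x => by
    rw [sub_apply, inner_sub_left, h, sub_self]
  have h2 := (inner_map_self_eq_zero ((a - b : H →L[ℂ] H) : H →ₗ[ℂ] H)).1 h1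
  ext x
  have h3 := congrArg (fun f : H →ₗ[ℂ] H => f x) h2
  simpa [sub_eq_zero] using h3

/-- Graph lemma: an isometric relation invariant under the commutant is implemented by an isometric
isometry of the algebra. -/
theorem exists_pisom (M : VonNeumannAlgebra H) (Γ : Submodule ℂ (H × H))
    (hiso : ∀ z ∈ Γ, ‖z.1‖ = ‖z.2‖)
    (hinv : ∀ y ∈ M.commutant, ∀ z ∈ Γ, ((y z.1, y z.2) : H × H) ∈ Γ) :
    ∃ v ∈ M, (∀ z ∈ Γ, v z.1 = z.2) ∧ (∀ z ∈ Γ, (star v) z.2 = z.1) ∧
      IsStarProjection (star v * v) ∧ v * star v * v = v ∧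
      (∀ a : H →L[ℂ] H, (∀ z ∈ Γ, a z.1 = 0) → a * (star v * v) = 0) ∧
      (∀ a : H →L[ℂ] H, (∀ z ∈ Γ, a z.2 = 0) → a * v = 0) := by
  set Γ' : Submodule ℂ (H × H) := Γ.topologicalClosure with hΓ'
  have hcl : IsClosed (Γ' : Set (H × H)) := Γ.isClosed_topologicalClosure
  have hle : Γ ≤ Γ' := Γ.le_topologicalClosure
  have hiso' : ∀ z ∈ Γ', ‖z.1‖ = ‖z.2‖ := by
    intro z hz
    have hc : IsClosed {z : H × H | ‖z.1‖ = ‖z.2‖} :=
      isClosed_eq (continuous_fst.norm) (continuous_snd.norm)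
    have : (Γ' : Set (H × H)) ⊆ {z : H × H | ‖z.1‖ = ‖z.2‖} := by
      rw [hΓ', Submodule.topologicalClosure_coe]
      exact closure_minimal hiso hc
    exact this hz
  have hinv' : ∀ y ∈ M.commutant, ∀ z ∈ Γ', ((y z.1, y z.2) : H × H) ∈ Γ' := by
    intro y hy z hz
    have hcont : Continuous (fun z : H × H => ((y z.1, y z.2) : H × H)) := by fun_prop
    have h1 : (Γ' : Set (H × H)) ⊆ (fun z : H × H => ((y z.1, y z.2) : H × H)) ⁻¹' Γ' := by
      rw [hΓ', Submodule.topologicalClosure_coe]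
      refine closure_minimal (fun w hw => ?_) ((isClosed_closure).preimage hcont)
      exact subset_closure (hinv y hy w hw)
    exact h1 hz
  have hΓc : CompleteSpace Γ' := hcl.completeSpace_coe
  -- the isometry fst
  have hnorm : ∀ z : Γ', ‖(z : H × H)‖ = ‖(z : H × H).1‖ := by
    intro z
    rw [Prod.norm_def, hiso' z z.2, max_self]
  let f₁ : Γ' →ₗᵢ[ℂ] H :=
    { toLinearMap := (LinearMap.fst ℂ H H).comp Γ'.subtype
      norm_map' := fun z => (hnorm z).symm }
  let f₂ : Γ' →L[ℂ] H := (ContinuousLinearMap.snd ℂ H H).comp Γ'.subtypeL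
  have hf₁ : ∀ z : Γ', f₁ z = (z : H × H).1 := fun z => rfl
  have hf₂ : ∀ z : Γ', f₂ z = (z : H × H).2 := fun z => rfl
  set K : Submodule ℂ H := f₁.toLinearMap.range with hK
  let e : Γ' ≃ₗᵢ[ℂ] K := f₁.equivRange
  have hKc : CompleteSpace K := e.toIsometryEquiv.completeSpace_iff.1 hΓc
  let P : H →L[ℂ] K := K.orthogonalProjectionOnto
  let v : H →L[ℂ] H := f₂.comp ((e.symm.toContinuousLinearEquiv : K →L[ℂ] Γ').comp P)
  have he : ∀ z : Γ', e z = ⟨(z : H × H).1, ⟨z, rfl⟩⟩ := fun z => rfl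
  have hv1 : ∀ z ∈ Γ', v z.1 = z.2 := by
    intro z hz
    have h1 : P z.1 = e ⟨z, hz⟩ := by
      have : P ((e ⟨z, hz⟩ : K) : H) = e ⟨z, hz⟩ :=
        Submodule.orthogonalProjectionOnto_mem_subspace_eq_self _
      exact this
    change f₂ (e.symm (P z.1)) = z.2
    rw [h1, e.symm_apply_apply, hf₂]
  have hv0 : ∀ x ∈ Kᗮ, v x = 0 := by
    intro x hx
    have h1 : P x = 0 := Submodule.orthogonalProjectionOnto_apply_of_mem_orthogonal hx
    change f₂ (e.symm (P x)) = 0
    rw [h1]; simp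
  set p : H →L[ℂ] H := K.starProjection with hp
  have hpstar : IsStarProjection p := isStarProjection_starProjection
  have hdec : ∀ x : H, x - p x ∈ Kᗮ := fun x => K.sub_starProjection_mem_orthogonal x
  have hpK : ∀ x : H, p x ∈ K := fun x => K.starProjection_apply_mem x
  have hvp : ∀ x, v x = v (p x) := by
    intro x
    have h1 : v (x - p x) = 0 := hv0 _ (hdec x)
    rw [map_sub, sub_eq_zero] at h1
    exact h1
  have hKmem : ∀ x ∈ K, ∃ z ∈ Γ', z.1 = x := by
    rintro x ⟨z, rfl⟩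
    exact ⟨z, z.2, rfl⟩
  have hnv : ∀ x, ‖v x‖ = ‖p x‖ := by
    intro x
    obtain ⟨z, hz, hzx⟩ := hKmem (p x) (hpK x)
    rw [hvp x, ← hzx, hv1 z hz, hiso' z hz]
  have hvv : star v * v = p := by
    apply ext_of_inner_self
    intro x
    have h1 : inner ℂ ((star v * v) x) (x) = inner ℂ (v x) (v x) := by
      rw [mulA, star_eq_adjoint, adjoint_inner_left]
    have h2 : inner ℂ (p x) (x) = inner ℂ (p x) (p x) := by
      have h3 : inner ℂ (p x) (x - p x) = 0 := (hdec x) _ (hpK x)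
      rw [inner_sub_right, sub_eq_zero] at h3
      exact h3
    rw [h1, h2, inner_self_eq_norm_sq_to_K, inner_self_eq_norm_sq_to_K, hnv]
  have hvpm : v * p = v := by
    ext x
    rw [mulA, ← hvp x]
  have hinvK : ∀ y ∈ M.commutant, ∀ x ∈ K, y x ∈ K := by
    intro y hy x hx
    obtain ⟨z, hz, rfl⟩ := hKmem x hx
    exact ⟨⟨_, hinv' y hy z hz⟩, rfl⟩
  have hinvK' : ∀ y ∈ M.commutant, ∀ x ∈ Kᗮ, y x ∈ Kᗮ := by
    intro y hy x hx w hw
    have h1 : (star y) w ∈ K := hinvK (star y) (star_mem hy) w hw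
    have h2 := hx _ h1
    rwa [star_eq_adjoint, adjoint_inner_left] at h2
  refine ⟨v, ?_, ?_, ?_, ?_, ?_, ?_, ?_⟩
  · rw [mem_iff_comm]
    intro y hy
    ext x
    rw [mulA, mulA]
    have h1 : v x = v (p x) := hvp x
    have h2 : v (y x) = v (y (p x)) := by
      have h3 : v (y (x - p x)) = 0 := hv0 _ (hinvK' y hy _ (hdec x))
      rw [map_sub, map_sub, sub_eq_zero] at h3
      exact h3
    obtain ⟨z, hz, hzx⟩ := hKmem (p x) (hpK x)
    rw [h1, h2, ← hzx, hv1 z hz]
    exact (hv1 _ (hinv' y hy z hz)).symm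
  · exact fun z hz => hv1 z (hle hz)
  · intro z hz
    have h1 : (star v * v) z.1 = p z.1 := by rw [hvv]
    rw [mulA, hv1 z (hle hz)] at h1
    rw [h1]
    exact (K.starProjection_eq_self_iff).2 ⟨⟨z, hle hz⟩, rfl⟩
  · rw [hvv]; exact hpstar
  · rw [mul_assoc, hvv, hvpm]
  · intro a ha
    rw [hvv]
    ext x
    rw [mulA]
    obtain ⟨z, hz, hzx⟩ := hKmem (p x) (hpK x)
    rw [← hzx]
    have hc : IsClosed {z : H × H | a z.1 = 0} :=
      isClosed_eq (by fun_prop) continuous_const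
    have h1 : (Γ' : Set (H × H)) ⊆ {z : H × H | a z.1 = 0} := by
      rw [hΓ', Submodule.topologicalClosure_coe]
      exact closure_minimal ha hc
    exact h1 hz
  · intro a ha
    ext x
    rw [mulA, hvp x]
    obtain ⟨z, hz, hzx⟩ := hKmem (p x) (hpK x)
    rw [← hzx, hv1 z hz]
    have hc : IsClosed {z : H × H | a z.2 = 0} :=
      isClosed_eq (by fun_prop) continuous_const
    have h1 : (Γ' : Set (H × H)) ⊆ {z : H × H | a z.2 = 0} := by
      rw [hΓ', Submodule.topologicalClosure_coe]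
      exact closure_minimal ha hc
    exact h1 hz

/-- e is a projection of the algebra M. -/
def Pr (M : VonNeumannAlgebra H) (e : H →L[ℂ] H) : Prop := e ∈ M ∧ e * e = e ∧ star e = e

/-- e is equivalent in M to a subprojection of f. -/
def Sub (M : VonNeumannAlgebra H) (e f : H →L[ℂ] H) : Prop :=
  ∃ v ∈ M, star v * v = e ∧ f * v = v

theorem comm_of_mem {M : VonNeumannAlgebra H} {x y : H →L[ℂ] H} (hx : x ∈ M)
    (hy : y ∈ M.commutant) : y * x = x * y := (mem_iff_comm M x).1 hx y hy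

theorem mem_of_commute {M : VonNeumannAlgebra H} {x a : H →L[ℂ] H} (hx : x ∈ M)
    (h : ∀ y, Commute x y → Commute (star x) y → Commute a y) : a ∈ M := by
  rw [mem_iff_comm]
  intro y hy
  have h1 : Commute x y := (comm_of_mem hx hy).symm
  have h2 : Commute (star x) y := (comm_of_mem (star_mem hx) hy).symm
  exact (h y h1 h2).eq.symm

theorem sqrt_mem {M : VonNeumannAlgebra H} {x : H →L[ℂ] H} (hx : x ∈ M) :
    CFC.sqrt x ∈ M := by
  refine mem_of_commute hx fun y h1 _ => ?_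
  rw [CFC.sqrt_eq_cfc]
  exact h1.cfc_nnreal _

theorem pr_zero (M : VonNeumannAlgebra H) : Pr M 0 := ⟨zero_mem M, by simp, by simp⟩

theorem pr_one (M : VonNeumannAlgebra H) : Pr M 1 := ⟨one_mem M, by simp, by simp⟩

theorem smul_mem' {M : VonNeumannAlgebra H} (c : ℂ) {x : H →L[ℂ] H} (hx : x ∈ M) : c • x ∈ M := by
  rw [mem_iff_comm]
  intro y hy
  rw [mul_smul_comm, smul_mul_assoc, comm_of_mem hx hy]

theorem left_of_right {e f : H →L[ℂ] H} (he : star e = e) (hf : star f = f) (h : f * e = e) :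
    e * f = e := by
  have := congrArg star h
  rwa [star_mul, he, hf] at this

theorem pr_sub {M : VonNeumannAlgebra H} {e f : H →L[ℂ] H} (he : Pr M e) (hf : Pr M f)
    (h : f * e = e) : Pr M (f - e) := by
  refine ⟨sub_mem hf.1 he.1, ?_, by rw [star_sub, hf.2.2, he.2.2]⟩
  have h' := left_of_right he.2.2 hf.2.2 h
  rw [sub_mul, mul_sub, mul_sub, hf.2.1, h, h', he.2.1]; abel

theorem pr_add {M : VonNeumannAlgebra H} {e f : H →L[ℂ] H} (he : Pr M e) (hf : Pr M f)
    (h : e * f = 0) : Pr M (e + f) := by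
  refine ⟨add_mem he.1 hf.1, ?_, by rw [star_add, hf.2.2, he.2.2]⟩
  have h' : f * e = 0 := by
    have := congrArg star h
    rwa [star_mul, he.2.2, hf.2.2, star_zero] at this
  rw [add_mul, mul_add, mul_add, hf.2.1, h, h', he.2.1]; abel

theorem star_self_zero {x : H →L[ℂ] H} (h : star x * x = 0) : x = 0 :=
  (CStarRing.star_mul_self_eq_zero_iff x).1 h

/-- isometry identities -/
theorem pi_mul {v e : H →L[ℂ] H} (he : e * e = e) (h : star v * v = e) : v * e = v := by
  have hs : star e = e := by rw [← h, star_mul, star_star]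
  have h1 : star (v - v * e) * (v - v * e) = 0 := by
    rw [star_sub, star_mul, hs, sub_mul, mul_sub, mul_sub, h]
    rw [mul_assoc, mul_assoc, ← mul_assoc (star v) v e, h, he, he]
    simp
  have h2 := star_self_zero h1
  exact (sub_eq_zero.1 h2).symm

theorem pi_final {v e : H →L[ℂ] H} (he : e * e = e) (h : star v * v = e) :
    (v * star v) * (v * star v) = v * star v ∧ star (v * star v) = v * star v := by
  refine ⟨?_, by rw [star_mul, star_star]⟩
  rw [mul_assoc, ← mul_assoc (star v), h, ← mul_assoc, pi_mul he h]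

theorem pi_pr {M : VonNeumannAlgebra H} {v e : H →L[ℂ] H} (hv : v ∈ M) (he : e * e = e)
    (h : star v * v = e) : Pr M (v * star v) :=
  ⟨mul_mem hv (star_mem hv), (pi_final he h).1, (pi_final he h).2⟩

/-- projection onto the closed span of a submodule invariant under the commutant -/
theorem exists_proj (M : VonNeumannAlgebra H) (K : Submodule ℂ H)
    (hK : ∀ y ∈ M.commutant, ∀ x ∈ K, y x ∈ K) :
    ∃ q, Pr M q ∧ (∀ x ∈ K, q x = x) ∧ ∀ a : H →L[ℂ] H, (∀ x ∈ K, a x = 0) → a * q = 0 := by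
  let Γ : Submodule ℂ (H × H) := K.map ((LinearMap.id : H →ₗ[ℂ] H).prod LinearMap.id)
  have hmem : ∀ z, z ∈ Γ ↔ ∃ x ∈ K, ((x, x) : H × H) = z := by
    intro z; exact Iff.rfl
  obtain ⟨v, hv, h1, h2, h3, h4, h5, h6⟩ := exists_pisom M Γ
    (by intro z hz; obtain ⟨x, hx, rfl⟩ := (hmem z).1 hz; rfl)
    (by
      intro y hy z hz
      obtain ⟨x, hx, rfl⟩ := (hmem z).1 hz
      exact (hmem _).2 ⟨y x, hK y hy x hx, rfl⟩)
  refine ⟨star v * v, ⟨mul_mem (star_mem hv) hv, h3.isIdempotentElem, h3.isSelfAdjoint⟩, ?_, ?_⟩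
  · intro x hx
    have hz : ((x, x) : H × H) ∈ Γ := (hmem _).2 ⟨x, hx, rfl⟩
    rw [mulA, h1 _ hz]
    exact h2 _ hz
  · intro a ha
    apply h5
    intro z hz
    obtain ⟨x, hx, rfl⟩ := (hmem z).1 hz
    exact ha x hx

/-- polar decomposition (supports) -/
theorem exists_polar (M : VonNeumannAlgebra H) {x : H →L[ℂ] H} (hx : x ∈ M) :
    ∃ v ∈ M, Pr M (star v * v) ∧ x * (star v * v) = x ∧
      (∀ a : H →L[ℂ] H, x * a = 0 → v * a = 0) ∧
      (∀ a : H →L[ℂ] H, a * x = 0 → a * v = 0) ∧ v * star v * x = x := by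
  set s : H →L[ℂ] H := CFC.sqrt (star x * x) with hs
  have hsM : s ∈ M := sqrt_mem (mul_mem (star_mem hx) hx)
  have hs0 : 0 ≤ s := CFC.sqrt_nonneg _
  have hss : s * s = star x * x := CFC.sqrt_mul_sqrt_self _ (star_mul_self_nonneg x)
  have hsa : star s = s := (IsSelfAdjoint.of_nonneg hs0).star_eq
  have hn : ∀ ξ, ‖s ξ‖ = ‖x ξ‖ := by
    intro ξ
    have h1 : inner ℂ (s ξ) (s ξ) = inner ℂ (x ξ) (x ξ) := by
      have h2 : inner ℂ ((s * s) ξ) (ξ) = inner ℂ (s ξ) (s ξ) := by
        rw [mulA]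
        conv_lhs => rw [← hsa]
        rw [star_eq_adjoint, adjoint_inner_left]
        rw [← star_eq_adjoint, hsa]
      have h3 : inner ℂ ((star x * x) ξ) (ξ) = inner ℂ (x ξ) (x ξ) := by
        rw [mulA, star_eq_adjoint, adjoint_inner_left]
      rw [← h2, hss, h3]
    rw [inner_self_eq_norm_sq_to_K, inner_self_eq_norm_sq_to_K] at h1
    have h4 : ‖s ξ‖ ^ 2 = ‖x ξ‖ ^ 2 := by exact_mod_cast h1
    nlinarith [norm_nonneg (s ξ), norm_nonneg (x ξ)]
  let L : H →ₗ[ℂ] (H × H) := (s : H →ₗ[ℂ] H).prod (x : H →ₗ[ℂ] H)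
  let Γ : Submodule ℂ (H × H) := LinearMap.range L
  obtain ⟨v, hv, h1, h2, h3, h4, h5, h6⟩ := exists_pisom M Γ
    (by rintro z ⟨ξ, rfl⟩; exact hn ξ)
    (by
      rintro y hy z ⟨ξ, rfl⟩
      refine ⟨y ξ, ?_⟩
      have e1 := comm_of_mem hsM hy
      have e2 := comm_of_mem hx hy
      refine Prod.ext ?_ ?_
      · change s (y ξ) = y (s ξ)
        rw [← mulA, ← mulA, e1]
      · change x (y ξ) = y (x ξ)
        rw [← mulA, ← mulA, e2])
  have hPs : (star v * v) * s = s := by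
    ext ξ
    have hz : ((s ξ, x ξ) : H × H) ∈ Γ := ⟨ξ, rfl⟩
    rw [mulA, mulA, h1 _ hz]
    exact h2 _ hz
  have hvs : v * s = x := by
    ext ξ
    have hz : ((s ξ, x ξ) : H × H) ∈ Γ := ⟨ξ, rfl⟩
    rw [mulA, h1 _ hz]
  have hpr : Pr M (star v * v) := ⟨mul_mem (star_mem hv) hv, h3.isIdempotentElem, h3.isSelfAdjoint⟩
  have hsP : s * (star v * v) = s := by
    have := congrArg star hPs
    rwa [star_mul, hpr.2.2, hsa] at this
  refine ⟨v, hv, hpr, ?_, ?_, ?_, ?_⟩
  · rw [← hvs]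
    rw [mul_assoc v s, hsP]
  · intro a ha
    have hsa0 : s * a = 0 := by
      ext ξ
      have h7 : ‖s (a ξ)‖ = 0 := by
        rw [hn, ← mulA, ha]; simp
      rw [mulA]; simpa using h7
    have h8 : star a * s = 0 := by
      have := congrArg star hsa0
      rwa [star_mul, hsa, star_zero] at this
    have h9 : star a * (star v * v) = 0 := by
      apply h5
      rintro z ⟨ξ, rfl⟩
      change (star a) (s ξ) = 0
      rw [← mulA, h8]; simp
    have h10 : (star v * v) * a = 0 := by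
      have := congrArg star h9
      rwa [star_mul, hpr.2.2, star_star, star_zero] at this
    have h11 : star (v * a) * (v * a) = 0 := by
      rw [star_mul, mul_assoc, ← mul_assoc (star v), h10, mul_zero]
    exact star_self_zero h11
  · intro a ha
    apply h6
    rintro z ⟨ξ, rfl⟩
    change a (x ξ) = 0
    rw [← mulA, ha]; simp
  · calc v * star v * x = v * (star v * v * s) := by rw [← hvs]; simp only [mul_assoc]
      _ = x := by rw [hPs, hvs]

end Pool.Agent.Zk50.IE
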