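import Mathlib
import Pool.Agent.Zk50.IE.Defs
import Pool.Agent.Zk50.IE.VN

/-!
Von Neumann algebras with a cyclic trace vector: right multiplications, the modular conjugation, the
commutation theorem and the basic construction.
(The first part follows `Pool/Agent/Y671/WD/Trace.lean` and `Reg.lean`.)
-/

set_option autoImplicit false
open scoped InnerProductSpace
open Filter Topology

namespace Pool.Agent.Zk50.IE

variable {H : Type*} [NormedAddCommGroup H] [InnerProductSpace ℂ H] [CompleteSpace H]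

/-- `Ω` is a cyclic trace vector of `N` -/
def IsTV (N : VonNeumannAlgebra H) (Ω : H) : Prop :=
  ‖Ω‖ = 1 ∧ (∀ a ∈ N, ∀ b ∈ N, ⟪Ω, (a * b) Ω⟫_ℂ = ⟪Ω, (b * a) Ω⟫_ℂ) ∧
    Dense {ξ : H | ∃ a ∈ N, ξ = a Ω}

variable {N Q : VonNeumannAlgebra H} {Ω : H}

lemma star_inner (a : H →L[ℂ] H) (ξ η : H) : ⟪(star a) ξ, η⟫_ℂ = ⟪ξ, a η⟫_ℂ := by
  rw [ContinuousLinearMap.star_eq_adjoint, ContinuousLinearMap.adjoint_inner_left]

lemma inner_star (a : H →L[ℂ] H) (ξ η : H) : ⟪ξ, (star a) η⟫_ℂ = ⟪a ξ, η⟫_ℂ := by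
  rw [ContinuousLinearMap.star_eq_adjoint, ContinuousLinearMap.adjoint_inner_right]

lemma norm_star_eq (hΩ : IsTV N Ω) {c : H →L[ℂ] H} (hc : c ∈ N) :
    ‖c Ω‖ = ‖(star c) Ω‖ := by
  have h2 : (⟪c Ω, c Ω⟫_ℂ) = ⟪(star c) Ω, (star c) Ω⟫_ℂ := by
    rw [star_inner, ← inner_star, ← mulA, ← mulA]
    exact hΩ.2.1 _ (star_mem hc) _ hc
  rw [inner_self_eq_norm_sq_to_K, inner_self_eq_norm_sq_to_K] at h2
  have h3 : ‖c Ω‖ ^ 2 = ‖(star c) Ω‖ ^ 2 := by exact_mod_cast h2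
  exact (pow_left_inj₀ (norm_nonneg _) (norm_nonneg _) (by norm_num)).1 h3

/-- `‖b a Ω‖ ≤ ‖a‖ ‖b Ω‖` -/
lemma norm_right_le (hΩ : IsTV N Ω) {a b : H →L[ℂ] H} (ha : a ∈ N) (hb : b ∈ N) :
    ‖b (a Ω)‖ ≤ ‖a‖ * ‖b Ω‖ := by
  have h2 : ‖b (a Ω)‖ = ‖(star a) ((star b) Ω)‖ := by
    have := norm_star_eq hΩ (mul_mem hb ha)
    rw [star_mul] at this
    exact this
  rw [h2, norm_star_eq hΩ hb]
  refine ((star a).le_opNorm _).trans_eq ?_
  rw [norm_star]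

/-- two bounded operators which agree on `N Ω` are equal -/
lemma ext_cyc (hΩ : IsTV N Ω) {S T : H →L[ℂ] H} (h : ∀ a ∈ N, S (a Ω) = T (a Ω)) :
    S = T := by
  have h1 : {ξ : H | S ξ = T ξ} = Set.univ := by
    have h2 : IsClosed {ξ : H | S ξ = T ξ} := isClosed_eq S.continuous T.continuous
    rw [← h2.closure_eq]
    exact (hΩ.2.2.mono (by rintro _ ⟨a, ha, rfl⟩; exact h a ha)).closure_eq
  ext ξ
  exact (h1 ▸ Set.mem_univ ξ : ξ ∈ {ξ : H | S ξ = T ξ})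

lemma comm_app {r a : H →L[ℂ] H} (hr : r ∈ N.commutant) (ha : a ∈ N) (ξ : H) :
    r (a ξ) = a (r ξ) := by
  have h1 := VonNeumannAlgebra.mem_commutant_iff.1 hr a ha
  have h2 := congrArg (fun T : H →L[ℂ] H => T ξ) h1
  exact h2.symm

/-- an element of the commutant is determined by its value at `Ω` -/
lemma ext_comm (hΩ : IsTV N Ω) {r s : H →L[ℂ] H} (hr : r ∈ N.commutant)
    (hs : s ∈ N.commutant) (h : r Ω = s Ω) : r = s := by
  refine ext_cyc hΩ fun a ha => ?_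
  rw [comm_app hr ha, comm_app hs ha, h]

/-- existence of the right multiplications -/
lemma exists_right (hΩ : IsTV N Ω) (a : H →L[ℂ] H) (ha : a ∈ N) :
    ∃ r ∈ N.commutant, r Ω = a Ω := by
  set f : N.toStarSubalgebra →ₗ[ℂ] H :=
    { toFun := fun b => (b : H →L[ℂ] H) (a Ω)
      map_add' := fun _ _ => rfl
      map_smul' := fun _ _ => rfl } with hf
  set e : N.toStarSubalgebra →ₗ[ℂ] H :=
    { toFun := fun b => (b : H →L[ℂ] H) Ω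
      map_add' := fun _ _ => rfl
      map_smul' := fun _ _ => rfl } with he
  have hd : DenseRange e := by
    refine hΩ.2.2.mono ?_
    rintro _ ⟨b, hb, rfl⟩
    exact ⟨⟨b, hb⟩, rfl⟩
  have hn : ∃ C, ∀ x, ‖f x‖ ≤ C * ‖e x‖ := ⟨‖a‖, fun b => norm_right_le hΩ ha b.2⟩
  set r : H →L[ℂ] H := f.extendOfNorm e with hr
  have hrb : ∀ b ∈ N, r (b Ω) = b (a Ω) := fun b hb =>
    LinearMap.extendOfNorm_eq hd hn ⟨b, hb⟩
  refine ⟨r, ?_, ?_⟩
  · rw [VonNeumannAlgebra.mem_commutant_iff]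
    intro c hc
    refine ext_cyc hΩ fun b hb => ?_
    rw [mulA, mulA, hrb b hb]
    exact (hrb (c * b) (mul_mem hc hb)).symm
  · have := hrb 1 (one_mem N)
    simpa using this

/-- the right multiplications -/
noncomputable def RR (hΩ : IsTV N Ω) (a : H →L[ℂ] H) : H →L[ℂ] H :=
  open Classical in if ha : a ∈ N then (exists_right hΩ a ha).choose else 0

lemma RR_mem (hΩ : IsTV N Ω) {a : H →L[ℂ] H} (ha : a ∈ N) : RR hΩ a ∈ N.commutant := by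
  unfold RR
  rw [dif_pos ha]
  exact (exists_right hΩ a ha).choose_spec.1

lemma RR_Ω (hΩ : IsTV N Ω) {a : H →L[ℂ] H} (ha : a ∈ N) : RR hΩ a Ω = a Ω := by
  unfold RR
  rw [dif_pos ha]
  exact (exists_right hΩ a ha).choose_spec.2

lemma RR_app (hΩ : IsTV N Ω) {a b : H →L[ℂ] H} (ha : a ∈ N) (hb : b ∈ N) :
    RR hΩ a (b Ω) = b (a Ω) := by
  rw [comm_app (RR_mem hΩ ha) hb, RR_Ω hΩ ha]

lemma RR_mul (hΩ : IsTV N Ω) {a b : H →L[ℂ] H} (ha : a ∈ N) (hb : b ∈ N) :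
    RR hΩ a * RR hΩ b = RR hΩ (b * a) := by
  refine ext_comm hΩ (mul_mem (RR_mem hΩ ha) (RR_mem hΩ hb)) (RR_mem hΩ (mul_mem hb ha)) ?_
  rw [mulA, RR_Ω hΩ hb, RR_app hΩ ha hb, RR_Ω hΩ (mul_mem hb ha)]
  rfl

lemma RR_one (hΩ : IsTV N Ω) : RR hΩ 1 = 1 := by
  refine ext_comm hΩ (RR_mem hΩ (one_mem N)) (one_mem _) ?_
  rw [RR_Ω hΩ (one_mem N)]

lemma RR_add (hΩ : IsTV N Ω) {a b : H →L[ℂ] H} (ha : a ∈ N) (hb : b ∈ N) :
    RR hΩ (a + b) = RR hΩ a + RR hΩ b := by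
  refine ext_comm hΩ (RR_mem hΩ (add_mem ha hb)) (add_mem (RR_mem hΩ ha) (RR_mem hΩ hb)) ?_
  rw [RR_Ω hΩ (add_mem ha hb), add_apply, add_apply, RR_Ω hΩ ha, RR_Ω hΩ hb]

lemma RR_smul (hΩ : IsTV N Ω) (c : ℂ) {a : H →L[ℂ] H} (ha : a ∈ N) :
    RR hΩ (c • a) = c • RR hΩ a := by
  refine ext_comm hΩ (RR_mem hΩ (smul_mem' c ha)) (smul_mem' c (RR_mem hΩ ha)) ?_
  rw [RR_Ω hΩ (smul_mem' c ha), smul_apply, smul_apply, RR_Ω hΩ ha]

lemma RR_star (hΩ : IsTV N Ω) {a : H →L[ℂ] H} (ha : a ∈ N) :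
    star (RR hΩ a) = RR hΩ (star a) := by
  refine ext_comm hΩ (star_mem (RR_mem hΩ ha)) (RR_mem hΩ (star_mem ha)) ?_
  rw [RR_Ω hΩ (star_mem ha)]
  refine hΩ.2.2.eq_of_inner_left (𝕜 := ℂ) ?_
  rintro _ ⟨b, hb, rfl⟩
  rw [star_inner, star_inner]
  change ⟪Ω, RR hΩ a (b Ω)⟫_ℂ = ⟪Ω, a (b Ω)⟫_ℂ
  rw [RR_app hΩ ha hb]
  exact hΩ.2.1 b hb a ha

/-- the vector `Ω` separates `N` -/
lemma separating (hΩ : IsTV N Ω) {a b : H →L[ℂ] H} (ha : a ∈ N) (hb : b ∈ N)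
    (h : a Ω = b Ω) : a = b := by
  refine ext_cyc hΩ fun c hc => ?_
  rw [← RR_app hΩ hc ha, ← RR_app hΩ hc hb, h]

/-- a projection commutes with an operator which, with its adjoint, leaves the range invariant -/
lemma proj_comm (K : Submodule ℂ H) [K.HasOrthogonalProjection] (T : H →L[ℂ] H)
    (h : ∀ x ∈ K, T x ∈ K) (h' : ∀ x ∈ K, (star T) x ∈ K) :
    T * K.starProjection = K.starProjection * T := by
  ext ξ
  rw [mulA, mulA]
  symm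
  refine Submodule.eq_starProjection_of_mem_of_inner_eq_zero (h _ (K.starProjection_apply_mem ξ)) ?_
  intro w hw
  rw [← map_sub, ← inner_star]
  exact K.starProjection_inner_eq_zero _ _ (h' w hw)

/-- a continuous linear map sending a subspace to the closure of another sends its closure there -/
lemma map_closure {V W : Submodule ℂ H} {T : H →L[ℂ] H}
    (h : ∀ q ∈ V, T q ∈ W.topologicalClosure) :
    ∀ x ∈ V.topologicalClosure, T x ∈ W.topologicalClosure := by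
  intro x hx
  have h1 : Set.MapsTo T V W.topologicalClosure := h
  have h2 := h1.closure T.continuous
  have h3 : closure ((W.topologicalClosure : Submodule ℂ H) : Set H) = W.topologicalClosure :=
    W.isClosed_topologicalClosure.closure_eq
  rw [h3] at h2
  exact h2 hx

lemma mem_HH {q : H →L[ℂ] H} (hq : q ∈ Q) : q Ω ∈ HH Q Ω :=
  (orb Q Ω).le_topologicalClosure ⟨q, hq, rfl⟩

lemma map_HH {T : H →L[ℂ] H} (h : ∀ q ∈ Q, T (q Ω) ∈ HH Q Ω) : ∀ x ∈ HH Q Ω, T x ∈ HH Q Ω := by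
  apply map_closure
  rintro _ ⟨q, hq, rfl⟩
  exact h q hq

lemma ee_comm {T : H →L[ℂ] H} (h : ∀ q ∈ Q, T (q Ω) ∈ HH Q Ω)
    (h' : ∀ q ∈ Q, (star T) (q Ω) ∈ HH Q Ω) : T * ee Q Ω = ee Q Ω * T :=
  proj_comm _ T (map_HH h) (map_HH h')

lemma ee_left {q : H →L[ℂ] H} (hq : q ∈ Q) : q * ee Q Ω = ee Q Ω * q :=
  ee_comm (fun _ hb => mem_HH (mul_mem hq hb)) (fun _ hb => mem_HH (mul_mem (star_mem hq) hb))

lemma ee_right (hΩ : IsTV N Ω) (hQN : ∀ a ∈ Q, a ∈ N) {q : H →L[ℂ] H} (hq : q ∈ Q) :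
    RR hΩ q * ee Q Ω = ee Q Ω * RR hΩ q := by
  refine ee_comm (fun b hb => ?_) fun b hb => ?_
  · rw [RR_app hΩ (hQN q hq) (hQN b hb)]
    exact mem_HH (mul_mem hb hq)
  · rw [RR_star hΩ (hQN q hq), RR_app hΩ (star_mem (hQN q hq)) (hQN b hb)]
    exact mem_HH (mul_mem hb (star_mem hq))

lemma ee_idem : ee Q Ω * ee Q Ω = ee Q Ω := (orb Q Ω).topologicalClosure.isIdempotentElem_starProjection

lemma ee_self : star (ee Q Ω) = ee Q Ω := isSelfAdjoint_starProjection _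

lemma ee_apply_mem (x : H) : ee Q Ω x ∈ HH Q Ω :=
  (orb Q Ω).topologicalClosure.starProjection_apply_mem x

lemma ee_of_mem {x : H} (hx : x ∈ HH Q Ω) : ee Q Ω x = x :=
  Submodule.starProjection_eq_self_iff.2 hx

lemma ee_q {q : H →L[ℂ] H} (hq : q ∈ Q) : ee Q Ω (q Ω) = q Ω := ee_of_mem (mem_HH hq)

lemma ee_Ω : ee Q Ω Ω = Ω := by
  have := ee_q (Q := Q) (Ω := Ω) (one_mem Q)
  simpa using this

/-- an element of `N` whose value at `Ω` is in the closure of `Q Ω` is in `Q` -/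
lemma mem_of_HH (hΩ : IsTV N Ω) (hQN : ∀ a ∈ Q, a ∈ N) {w : H →L[ℂ] H} (hw : w ∈ N)
    (hwQ : w Ω ∈ HH Q Ω) : w ∈ Q := by
  have h0 : w Ω ∈ closure {ξ : H | ∃ q ∈ Q, ξ = q Ω} := hwQ
  obtain ⟨x, hx, hxw⟩ := mem_closure_iff_seq_limit.1 h0
  choose q hqQ hqx using hx
  have hlim : Tendsto (fun n => q n Ω) atTop (𝓝 (w Ω)) := hxw.congr fun n => hqx n
  have hlim' : Tendsto (fun n => (star (q n)) Ω) atTop (𝓝 ((star w) Ω)) := by
    rw [tendsto_iff_norm_sub_tendsto_zero] at hlim ⊢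
    refine hlim.congr fun n => ?_
    have h1 := norm_star_eq hΩ (sub_mem (hQN _ (hqQ n)) hw)
    rw [star_sub] at h1
    exact h1
  rw [← Q.commutant_commutant, VonNeumannAlgebra.mem_commutant_iff]
  intro z hz
  have hz' : ∀ a ∈ Q, ∀ ξ : H, z (a ξ) = a (z ξ) := fun a ha ξ => comm_app hz ha ξ
  refine ext_cyc hΩ fun r hr => ?_
  refine hΩ.2.2.eq_of_inner_right (𝕜 := ℂ) ?_
  rintro _ ⟨s, hs, rfl⟩
  rw [mulA, mulA]
  have e1 : w (r Ω) = RR hΩ r (w Ω) := (RR_app hΩ hr hw).symm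
  have l1 : Tendsto (fun n => ⟪s Ω, z (RR hΩ r (q n Ω))⟫_ℂ) atTop (𝓝 ⟪s Ω, z (w (r Ω))⟫_ℂ) := by
    rw [e1]
    exact (tendsto_const_nhds.inner (((z.continuous.comp (RR hΩ r).continuous).tendsto _).comp hlim))
  have l2 : Tendsto (fun n => ⟪RR hΩ s ((star (q n)) Ω), z (r Ω)⟫_ℂ) atTop
      (𝓝 ⟪s Ω, w (z (r Ω))⟫_ℂ) := by
    have e2 : ⟪s Ω, w (z (r Ω))⟫_ℂ = ⟪RR hΩ s ((star w) Ω), z (r Ω)⟫_ℂ := by
      rw [RR_app hΩ hs (star_mem hw), star_inner]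
    rw [e2]
    exact ((((RR hΩ s).continuous.tendsto _).comp hlim').inner tendsto_const_nhds)
  refine tendsto_nhds_unique l1 (l2.congr fun n => ?_)
  rw [RR_app hΩ hs (star_mem (hQN _ (hqQ n))), RR_app hΩ hr (hQN _ (hqQ n)), star_inner,
    hz' _ (hqQ n)]

/-! ### The modular conjugation -/

lemma dense_ind (hΩ : IsTV N Ω) {P : H → Prop} (hP : IsClosed {x | P x})
    (h : ∀ a ∈ N, P (a Ω)) (x : H) : P x := by
  have h1 : closure {ξ : H | ∃ a ∈ N, ξ = a Ω} ⊆ {x | P x} :=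
    closure_minimal (by rintro _ ⟨a, ha, rfl⟩; exact h a ha) hP
  rw [hΩ.2.2.closure_eq] at h1
  exact h1 (Set.mem_univ x)

variable {J : H ≃ₗᵢ⋆[ℂ] H}

lemma J_inner (hΩ : IsTV N Ω) (hJ : ∀ a ∈ N, J (a Ω) = (star a) Ω) (x y : H) :
    ⟪J x, J y⟫_ℂ = ⟪y, x⟫_ℂ := by
  refine dense_ind hΩ (P := fun x => ⟪J x, J y⟫_ℂ = ⟪y, x⟫_ℂ)
    (isClosed_eq (J.continuous.inner continuous_const) (continuous_const.inner continuous_id))
    (fun a ha => ?_) x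
  refine dense_ind hΩ (P := fun y => ⟪J (a Ω), J y⟫_ℂ = ⟪y, a Ω⟫_ℂ)
    (isClosed_eq (continuous_const.inner J.continuous) (continuous_id.inner continuous_const))
    (fun b hb => ?_) y
  change ⟪J (a Ω), J (b Ω)⟫_ℂ = ⟪b Ω, a Ω⟫_ℂ
  rw [hJ a ha, hJ b hb, star_inner, ← inner_star]
  exact hΩ.2.1 a ha (star b) (star_mem hb)

lemma J_J (hΩ : IsTV N Ω) (hJ : ∀ a ∈ N, J (a Ω) = (star a) Ω) (x : H) : J (J x) = x := by
  refine dense_ind hΩ (P := fun x => J (J x) = x)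
    (isClosed_eq (J.continuous.comp J.continuous) continuous_id) (fun a ha => ?_) x
  change J (J (a Ω)) = a Ω
  rw [hJ a ha, hJ _ (star_mem ha), star_star]

lemma J_inner' (hΩ : IsTV N Ω) (hJ : ∀ a ∈ N, J (a Ω) = (star a) Ω) (x y : H) :
    ⟪x, J y⟫_ℂ = ⟪y, J x⟫_ℂ := by
  conv_lhs => rw [← J_J hΩ hJ x]
  exact J_inner hΩ hJ _ _

lemma RR_eq_J (hΩ : IsTV N Ω) (hJ : ∀ a ∈ N, J (a Ω) = (star a) Ω) {f : H →L[ℂ] H} (hf : f ∈ N)
    (x : H) : J ((star f) (J x)) = RR hΩ f x := by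
  refine dense_ind hΩ (P := fun x => J ((star f) (J x)) = RR hΩ f x)
    (isClosed_eq (J.continuous.comp ((star f).continuous.comp J.continuous)) (RR hΩ f).continuous)
    (fun b hb => ?_) x
  change J ((star f) (J (b Ω))) = RR hΩ f (b Ω)
  rw [hJ b hb, ← mulA, hJ _ (mul_mem (star_mem hf) (star_mem hb)), star_mul, star_star, star_star,
    RR_app hΩ hf hb, mulA]

lemma J_RR (hΩ : IsTV N Ω) (hJ : ∀ a ∈ N, J (a Ω) = (star a) Ω) {f : H →L[ℂ] H} (hf : f ∈ N)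
    (x : H) : J (RR hΩ f x) = (star f) (J x) := by
  rw [← RR_eq_J hΩ hJ hf, J_J hΩ hJ]

lemma J_left (hΩ : IsTV N Ω) (hJ : ∀ a ∈ N, J (a Ω) = (star a) Ω) {f : H →L[ℂ] H} (hf : f ∈ N)
    (x : H) : J (f x) = RR hΩ (star f) (J x) := by
  rw [← RR_eq_J hΩ hJ (star_mem hf), J_J hΩ hJ, star_star]

lemma J_comm (hΩ : IsTV N Ω) (hJ : ∀ a ∈ N, J (a Ω) = (star a) Ω) {x : H →L[ℂ] H}
    (hx : x ∈ N.commutant) : J (x Ω) = (star x) Ω := by
  refine hΩ.2.2.eq_of_inner_right (𝕜 := ℂ) ?_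
  rintro _ ⟨a, ha, rfl⟩
  rw [J_inner' hΩ hJ, hJ a ha, inner_star, inner_star, comm_app hx ha]

/-- the trace vector is a cyclic trace vector of the commutant -/
lemma tv_comm (hΩ : IsTV N Ω) (hJ : ∀ a ∈ N, J (a Ω) = (star a) Ω) : IsTV N.commutant Ω := by
  refine ⟨hΩ.1, fun x hx y hy => ?_, hΩ.2.2.mono ?_⟩
  · have e1 : ∀ x ∈ N.commutant, ∀ y : H →L[ℂ] H, ⟪Ω, (x * y) Ω⟫_ℂ = ⟪J (x Ω), y Ω⟫_ℂ := by
      intro x hx y
      rw [J_comm hΩ hJ hx, star_inner]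
      rfl
    rw [e1 x hx, e1 y hy]
    conv_lhs => rw [← J_J hΩ hJ (y Ω)]
    rw [J_inner hΩ hJ]
  · rintro _ ⟨a, ha, rfl⟩
    exact ⟨RR hΩ a, RR_mem hΩ ha, (RR_Ω hΩ ha).symm⟩

/-- commutation theorem -/
lemma comm_eq_RR (hΩ : IsTV N Ω) (hJ : ∀ a ∈ N, J (a Ω) = (star a) Ω) {x : H →L[ℂ] H}
    (hx : x ∈ N.commutant) : ∃ a ∈ N, x = RR hΩ a := by
  obtain ⟨a, ha, h⟩ := exists_right (tv_comm hΩ hJ) x hx
  rw [VonNeumannAlgebra.commutant_commutant] at ha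
  exact ⟨a, ha, ext_comm hΩ hx (RR_mem hΩ ha) (by rw [RR_Ω hΩ ha, h])⟩

/-- the basic construction is the commutant of the right multiplications -/
lemma mem_basic (hΩ : IsTV N Ω) (hJ : ∀ a ∈ N, J (a Ω) = (star a) Ω) (hQN : ∀ a ∈ Q, a ∈ N)
    {x : H →L[ℂ] H} : x ∈ basic N Q Ω ↔ ∀ f ∈ Q, RR hΩ f * x = x * RR hΩ f := by
  have h0 : x ∈ basic N Q Ω ↔ x ∈ StarSubalgebra.centralizer ℂ
    (StarSubalgebra.centralizer ℂ ((N : Set (H →L[ℂ] H)) ∪ {ee Q Ω}) : Set (H →L[ℂ] H)) := Iff.rfl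
  rw [h0, StarSubalgebra.mem_centralizer_iff]
  constructor
  · intro h f hf
    refine (h (RR hΩ f) ?_).1
    change RR hΩ f ∈ StarSubalgebra.centralizer ℂ _
    rw [StarSubalgebra.mem_centralizer_iff]
    rintro g (hg | hg)
    · exact ⟨VonNeumannAlgebra.mem_commutant_iff.1 (RR_mem hΩ (hQN f hf)) g hg,
        VonNeumannAlgebra.mem_commutant_iff.1 (RR_mem hΩ (hQN f hf)) _ (star_mem hg)⟩
    · have hg' : g = ee Q Ω := hg
      rw [hg', ee_self, ee_right hΩ hQN hf]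
      exact ⟨rfl, rfl⟩
  · intro h g hg
    have hg' : g ∈ StarSubalgebra.centralizer ℂ ((N : Set (H →L[ℂ] H)) ∪ {ee Q Ω}) := hg
    rw [StarSubalgebra.mem_centralizer_iff] at hg'
    have h1 : g ∈ N.commutant := by
      rw [VonNeumannAlgebra.mem_commutant_iff]
      exact fun a ha => (hg' a (Or.inl ha)).1
    have h2 : ee Q Ω * g = g * ee Q Ω := (hg' (ee Q Ω) (Or.inr rfl)).1
    have h3 : g Ω ∈ HH Q Ω := by
      have h4 := congrArg (fun T : H →L[ℂ] H => T Ω) h2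
      simp only [mulA] at h4
      rw [ee_Ω] at h4
      rw [← h4]
      exact ee_apply_mem _
    obtain ⟨a, ha, rfl⟩ := comm_eq_RR hΩ hJ h1
    rw [RR_Ω hΩ ha] at h3
    have haQ := mem_of_HH hΩ hQN ha h3
    rw [RR_star hΩ ha]
    exact ⟨h a haQ, h _ (star_mem haQ)⟩

end Pool.Agent.Zk50.IE
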