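import Mathlib
import Pool.Agent.Zk50.IE.Tr

/-!
Projections onto closed subspaces, and their traces.
-/

set_option autoImplicit false
open scoped InnerProductSpace ENNReal NNReal
open Filter Topology

namespace Pool.Agent.Zk50.IE

variable {H : Type*} [NormedAddCommGroup H] [InnerProductSpace ℂ H] [CompleteSpace H]
  {V W : Submodule ℂ H}

lemma pr_star (V : Submodule ℂ H) : star (pr V) = pr V := isSelfAdjoint_starProjection _

lemma pr_idem (V : Submodule ℂ H) : pr V * pr V = pr V :=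
  V.topologicalClosure.isIdempotentElem_starProjection

lemma pr_apply_mem (V : Submodule ℂ H) (x : H) : pr V x ∈ V.topologicalClosure :=
  V.topologicalClosure.starProjection_apply_mem x

lemma pr_of_mem {x : H} (hx : x ∈ V.topologicalClosure) : pr V x = x :=
  Submodule.starProjection_eq_self_iff.2 hx

lemma pr_of_mem' {x : H} (hx : x ∈ V) : pr V x = x := pr_of_mem (V.le_topologicalClosure hx)

lemma eqOn_closure {S T : H →L[ℂ] H} (h : ∀ v ∈ V, S v = T v) :
    ∀ v ∈ V.topologicalClosure, S v = T v := by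
  intro v hv
  have h1 : IsClosed {ξ : H | S ξ = T ξ} := isClosed_eq S.continuous T.continuous
  have h2 : closure (V : Set H) ⊆ {ξ : H | S ξ = T ξ} := closure_minimal h h1
  exact h2 hv

lemma mul_pr_zero {T : H →L[ℂ] H} (h : ∀ v ∈ V, T v = 0) : T * pr V = 0 := by
  ext x
  rw [mulA]
  exact eqOn_closure (T := 0) h _ (pr_apply_mem V x)

lemma mul_pr_self {T : H →L[ℂ] H} (h : ∀ v ∈ V, T v = v) : T * pr V = pr V := by
  ext x
  rw [mulA]
  exact eqOn_closure (T := 1) h _ (pr_apply_mem V x)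

lemma le_of_mul {e f : H →L[ℂ] H} (he : e * e = e) (he' : star e = e) (hf : f * f = f)
    (hf' : star f = f) (h : f * e = e) : e ≤ f := by
  have h' : e * f = e := left_of_right he' hf' h
  have h1 : f - e = star (f - e) * (f - e) := by
    rw [star_sub, hf', he', sub_mul, mul_sub, mul_sub, hf, h, h', he]
    abel
  have h2 : 0 ≤ f - e := by
    rw [h1]
    exact star_mul_self_nonneg _
  exact sub_nonneg.1 h2

lemma pr_le_of_fix {T : H →L[ℂ] H} (h1 : T * T = T) (h2 : star T = T) (h : ∀ v ∈ V, T v = v) :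
    pr V ≤ T :=
  le_of_mul (pr_idem V) (pr_star V) h1 h2 (mul_pr_self h)

lemma pr_nonneg (V : Submodule ℂ H) : 0 ≤ pr V := by
  have h1 : pr V = star (pr V) * pr V := by rw [pr_star, pr_idem]
  rw [h1]
  exact star_mul_self_nonneg _

lemma pr_mono (h : ∀ v ∈ V, v ∈ W.topologicalClosure) : pr V ≤ pr W :=
  pr_le_of_fix (pr_idem W) (pr_star W) fun v hv => pr_of_mem (h v hv)

lemma pr_mem {M : VonNeumannAlgebra H} (h : ∀ y ∈ M.commutant, ∀ v ∈ V, y v ∈ V.topologicalClosure) :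
    pr V ∈ M := by
  rw [mem_iff_comm]
  intro y hy
  exact proj_comm _ y (map_closure (h y hy)) (map_closure (h _ (star_mem hy)))

lemma pr_perp {x : H} (h : ∀ v ∈ V, ⟪v, x⟫_ℂ = 0) : pr V x = 0 := by
  refine (Submodule.starProjection_apply_eq_zero_iff V.topologicalClosure).2 ?_
  intro v hv
  have h1 : IsClosed {v : H | ⟪v, x⟫_ℂ = 0} :=
    isClosed_eq (continuous_id.inner continuous_const) continuous_const
  have h2 : closure (V : Set H) ⊆ {v : H | ⟪v, x⟫_ℂ = 0} := closure_minimal h h1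
  exact h2 hv

/-- the range of an operator, as a subspace -/
abbrev rg (X : H →L[ℂ] H) : Submodule ℂ H := LinearMap.range (X : H →ₗ[ℂ] H)

lemma mem_rg (X : H →L[ℂ] H) (x : H) : X x ∈ rg X := ⟨x, rfl⟩

lemma pr_rg_mem {M : VonNeumannAlgebra H} {X : H →L[ℂ] H} (hX : X ∈ M) : pr (rg X) ∈ M := by
  refine pr_mem ?_
  rintro y hy _ ⟨x, rfl⟩
  refine (rg X).le_topologicalClosure ⟨y x, ?_⟩
  change X (y x) = y (X x)
  rw [← mulA, ← mulA, comm_of_mem hX hy]

variable {M : VonNeumannAlgebra H} {τ : (H →L[ℂ] H) → ℝ≥0∞}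

lemma tr_mono (hτ : IsTrace M τ) {x y : H →L[ℂ] H} (hx : x ∈ M) (hy : y ∈ M) (h0 : 0 ≤ x)
    (h : x ≤ y) : τ x ≤ τ y := by
  have h1 := hτ.add x hx (y - x) (sub_mem hy hx) h0 (sub_nonneg.2 h)
  rw [add_sub_cancel] at h1
  rw [h1]
  exact le_self_add

lemma tr_zero (hτ : IsTrace M τ) : τ 0 = 0 := by
  have h := hτ.smul 0 0 (zero_mem M) le_rfl
  simpa using h

/-- the trace of the range projection of `X` is at most that of a projection `Q` with `X Q = X` -/
lemma tr_range (hτ : IsTrace M τ) {X Q : H →L[ℂ] H} (hX : X ∈ M) (hQ : Q ∈ M) (hQ1 : Q * Q = Q)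
    (hQ2 : star Q = Q) (h : X * Q = X) : τ (pr (rg X)) ≤ τ Q := by
  obtain ⟨v, hv, hp, h1, h2, h3, h4⟩ := exists_polar M hX
  have h5 : v * (1 - Q) = 0 := h2 _ (by rw [mul_sub, mul_one, h, sub_self])
  have h6 : v * Q = v := by
    rw [mul_sub, mul_one, sub_eq_zero] at h5
    exact h5.symm
  have h7 : star v * v ≤ Q := by
    refine le_of_mul hp.2.1 hp.2.2 hQ1 hQ2 ?_
    have h8 : star v * v * Q = star v * v := by rw [mul_assoc, h6]
    have h9 := congrArg star h8
    rwa [star_mul, hp.2.2, hQ2] at h9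
  have h8 := pi_final hp.2.1 rfl
  have h9 : pr (rg X) ≤ v * star v := by
    refine pr_le_of_fix h8.1 h8.2 ?_
    rintro _ ⟨x, rfl⟩
    change (v * star v) (X x) = X x
    rw [← mulA, h4]
  calc τ (pr (rg X)) ≤ τ (v * star v) :=
        tr_mono hτ (pr_rg_mem hX) (mul_mem hv (star_mem hv)) (pr_nonneg _) h9
    _ = τ (star v * v) := (hτ.trace v hv).symm
    _ ≤ τ Q := tr_mono hτ (mul_mem (star_mem hv) hv) hQ (star_mul_self_nonneg v) h7

/-- subadditivity of the trace on joins -/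
lemma tr_sup (hτ : IsTrace M τ) (hV : pr V ∈ M) (hW : pr W ∈ M) (hVW : pr (V ⊔ W) ∈ M) :
    τ (pr (V ⊔ W)) ≤ τ (pr V) + τ (pr W) := by
  set X : H →L[ℂ] H := (1 - pr V) * pr W with hX
  have hXM : X ∈ M := mul_mem (sub_mem (one_mem M) hV) hW
  set R := pr (rg X) with hR
  have hRM : R ∈ M := pr_rg_mem hXM
  have hPR : pr V * R = 0 := by
    refine mul_pr_zero ?_
    rintro _ ⟨x, rfl⟩
    change pr V (X x) = 0
    rw [← mulA, hX, ← mul_assoc, mul_sub, mul_one, pr_idem, sub_self, zero_mul]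
    rfl
  have hP : Pr M (pr V + R) := pr_add ⟨hV, pr_idem V, pr_star V⟩ ⟨hRM, pr_idem _, pr_star _⟩ hPR
  have hRP : R * pr V = 0 := by
    have := congrArg star hPR
    rwa [star_mul, pr_star, pr_star, star_zero] at this
  have hfV : ∀ v ∈ V, (pr V + R) v = v := by
    intro v hv
    have h1 : R v = 0 := by
      have h2 := congrArg (fun T : H →L[ℂ] H => T v) hRP
      simp only [mulA] at h2
      rw [pr_of_mem' hv] at h2
      simpa using h2
    rw [add_apply, h1, pr_of_mem' hv, add_zero]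
  have hfW : ∀ w ∈ W, (pr V + R) w = w := by
    intro w hw
    have h1 : X w = w - pr V w := by
      rw [hX, mulA, pr_of_mem' hw, sub_apply]
      rfl
    have h2 : R (w - pr V w) = w - pr V w := by
      rw [← h1]
      exact pr_of_mem' (mem_rg X w)
    have h3 : R (pr V w) = 0 := by
      rw [← mulA, hRP]
      rfl
    rw [map_sub, h3, sub_zero] at h2
    rw [add_apply, h2]
    abel
  have hle : pr (V ⊔ W) ≤ pr V + R := by
    refine pr_le_of_fix hP.2.1 hP.2.2 ?_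
    intro x hx
    obtain ⟨v, hv, w, hw, rfl⟩ := Submodule.mem_sup.1 hx
    rw [map_add, hfV v hv, hfW w hw]
  calc τ (pr (V ⊔ W)) ≤ τ (pr V + R) := tr_mono hτ hVW hP.1 (pr_nonneg _) hle
    _ = τ (pr V) + τ R := hτ.add _ hV _ hRM (pr_nonneg _) (pr_nonneg _)
    _ ≤ τ (pr V) + τ (pr W) := by
      gcongr
      refine tr_range hτ hXM hW (pr_idem W) (pr_star W) ?_
      rw [hX, mul_assoc, pr_idem]

/-- superadditivity on orthogonal subspaces -/
lemma tr_orth (hτ : IsTrace M τ) (hV : pr V ∈ M) (hW : pr W ∈ M) (hVW : pr (V ⊔ W) ∈ M)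
    (h : ∀ v ∈ V, ∀ w ∈ W, ⟪v, w⟫_ℂ = 0) : τ (pr V) + τ (pr W) ≤ τ (pr (V ⊔ W)) := by
  have hPQ : pr V * pr W = 0 := mul_pr_zero fun w hw => pr_perp fun v hv => h v hv w hw
  have hP : Pr M (pr V + pr W) := pr_add ⟨hV, pr_idem V, pr_star V⟩ ⟨hW, pr_idem W, pr_star W⟩ hPQ
  rw [← hτ.add _ hV _ hW (pr_nonneg _) (pr_nonneg _)]
  refine tr_mono hτ hP.1 hVW (add_nonneg (pr_nonneg _) (pr_nonneg _)) ?_
  refine le_of_mul hP.2.1 hP.2.2 (pr_idem _) (pr_star _) ?_
  rw [mul_add, mul_pr_self fun v hv => pr_of_mem' (Submodule.mem_sup_left hv),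
    mul_pr_self fun v hv => pr_of_mem' (Submodule.mem_sup_right hv)]

lemma norm_pr_le (V : Submodule ℂ H) (x : H) : ‖x - pr V x‖ ≤ ‖x‖ := by
  have h1 : x - pr V x = (V.topologicalClosureᗮ).starProjection x := by
    rw [Submodule.starProjection_orthogonal_val]
    rfl
  rw [h1]
  exact Submodule.norm_starProjection_apply_le _ _

/-- the projection onto the closure of a directed union is the least upper bound -/
lemma isLUB_pr {c : Set (Submodule ℂ H)} (hne : c.Nonempty) (hc : DirectedOn (· ≤ ·) c) :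
    IsLUB (pr '' c) (pr (sSup c)) := by
  constructor
  · rintro _ ⟨V, hV, rfl⟩
    exact pr_mono fun v hv => (sSup c).le_topologicalClosure (le_sSup hV hv)
  · intro y hy
    have hy' : ∀ V ∈ c, pr V ≤ y := fun V hV => hy ⟨V, hV, rfl⟩
    obtain ⟨V₀, hV₀⟩ := hne
    have hysa : IsSelfAdjoint y := by
      have h1 : IsSelfAdjoint (y - pr V₀) := IsSelfAdjoint.of_nonneg (sub_nonneg.2 (hy' V₀ hV₀))
      have h2 : IsSelfAdjoint (pr V₀) := isSelfAdjoint_starProjection _
      have h3 := h1.add h2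
      rwa [sub_add_cancel] at h3
    have hPsa : IsSelfAdjoint (pr (sSup c)) := isSelfAdjoint_starProjection _
    have key : ∀ (V : Submodule ℂ H) (x : H), (⟪pr V x, x⟫_ℂ).re = ‖pr V x‖ ^ 2 := by
      intro V x
      have h1 : ⟪pr V x, x⟫_ℂ = ⟪pr V x, pr V x⟫_ℂ := by
        conv_lhs => rw [← pr_idem V, mulA, ← pr_star V, star_inner, pr_star]
      rw [h1, inner_self_eq_norm_sq_to_K]
      norm_cast
    rw [ContinuousLinearMap.le_def, ContinuousLinearMap.isPositive_def']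
    refine ⟨hysa.sub hPsa, fun x => ?_⟩
    rw [ContinuousLinearMap.reApplyInnerSelf_apply, sub_apply, inner_sub_left, map_sub]
    change 0 ≤ (⟪y x, x⟫_ℂ).re - (⟪pr (sSup c) x, x⟫_ℂ).re
    rw [key, sub_nonneg]
    have hb : ∀ V ∈ c, ‖pr V x‖ ^ 2 ≤ (⟪y x, x⟫_ℂ).re := by
      intro V hV
      have h1 := hy' V hV
      rw [ContinuousLinearMap.le_def, ContinuousLinearMap.isPositive_def'] at h1
      have h2 := h1.2 x
      rw [ContinuousLinearMap.reApplyInnerSelf_apply, sub_apply, inner_sub_left, map_sub] at h2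
      change 0 ≤ (⟪y x, x⟫_ℂ).re - (⟪pr V x, x⟫_ℂ).re at h2
      rw [key] at h2
      linarith
    have hnn : 0 ≤ (⟪y x, x⟫_ℂ).re := (sq_nonneg _).trans (hb V₀ hV₀)
    have hs : ‖pr (sSup c) x‖ ≤ Real.sqrt (⟪y x, x⟫_ℂ).re := by
      refine le_of_forall_pos_le_add fun ε hε => ?_
      have h1 : pr (sSup c) x ∈ closure ((sSup c : Submodule ℂ H) : Set H) := pr_apply_mem _ x
      obtain ⟨u, hu, hu'⟩ := Metric.mem_closure_iff.1 h1 ε hε
      obtain ⟨V, hV, huV⟩ := (Submodule.mem_sSup_of_directed ⟨V₀, hV₀⟩ hc).1 hu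
      set z := pr (sSup c) x with hz
      have h2 : pr V z = pr V x := by
        have h3 : pr (sSup c) * pr V = pr V :=
          mul_pr_self fun v hv => pr_of_mem' (le_sSup hV hv)
        have h4 : pr V * pr (sSup c) = pr V := left_of_right (pr_star _) (pr_star _) h3
        rw [hz, ← mulA, h4]
      have h5 : z - pr V z = (z - u) - pr V (z - u) := by
        rw [map_sub, pr_of_mem' huV]
        abel
      have h6 : ‖z - pr V z‖ ≤ ε := by
        rw [h5]
        refine (norm_pr_le V _).trans ?_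
        rw [← dist_eq_norm]
        exact hu'.le
      have h7 : ‖z‖ ≤ ‖pr V x‖ + ε := by
        calc ‖z‖ = ‖pr V z + (z - pr V z)‖ := by rw [add_sub_cancel]
          _ ≤ ‖pr V z‖ + ‖z - pr V z‖ := norm_add_le _ _
          _ ≤ ‖pr V x‖ + ε := by rw [h2] at *; gcongr
      have h8 : ‖pr V x‖ ≤ Real.sqrt (⟪y x, x⟫_ℂ).re := Real.le_sqrt_of_sq_le (hb V hV)
      linarith
    calc ‖pr (sSup c) x‖ ^ 2 ≤ (Real.sqrt (⟪y x, x⟫_ℂ).re) ^ 2 := by gcongr
      _ = _ := Real.sq_sqrt hnn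

/-- normality on directed families of subspaces -/
lemma tr_dir (hτ : IsTrace M τ) {c : Set (Submodule ℂ H)} (hne : c.Nonempty)
    (hc : DirectedOn (· ≤ ·) c) (hM : ∀ V ∈ c, pr V ∈ M) (hM' : pr (sSup c) ∈ M) {B : ℝ≥0∞}
    (hB : ∀ V ∈ c, τ (pr V) ≤ B) : τ (pr (sSup c)) ≤ B := by
  have h1 := hτ.normal (pr '' c) (hne.image _) ?_ ?_ _ hM' (isLUB_pr hne hc)
  · rw [h1]
    refine iSup₂_le ?_
    rintro _ ⟨V, hV, rfl⟩
    exact hB V hV
  · rintro _ ⟨V, hV, rfl⟩ _ ⟨W, hW, rfl⟩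
    obtain ⟨Z, hZ, hVZ, hWZ⟩ := hc V hV W hW
    exact ⟨_, ⟨Z, hZ, rfl⟩, pr_mono fun v hv => Z.le_topologicalClosure (hVZ hv),
      pr_mono fun v hv => Z.le_topologicalClosure (hWZ hv)⟩
  · rintro _ ⟨V, hV, rfl⟩
    exact ⟨hM V hV, pr_nonneg V⟩

end Pool.Agent.Zk50.IE
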