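import Mathlib
import Pool.Agent.Zk50.IE.Dim

/-!
The trace of a cyclic right module: if `η p = η` for a projection `p` of `G`, then the projection onto
the closure of `η G` has trace at most `μ(p)`.
-/

set_option autoImplicit false
open scoped InnerProductSpace ENNReal NNReal
open Filter Topology

namespace Pool.Agent.Zk50.IE

variable {H : Type*} [NormedAddCommGroup H] [InnerProductSpace ℂ H] [CompleteSpace H]
  {A G : VonNeumannAlgebra H} {Ω : H} {J : H ≃ₗᵢ⋆[ℂ] H}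

/-- the right orbit `η G` -/
noncomputable def cyc (hΩ : IsTV A Ω) (hG : ∀ a ∈ G, a ∈ A) (η : H) : Submodule ℂ H where
  carrier := {x | ∃ g ∈ G, x = RR hΩ g η}
  add_mem' := by
    rintro _ _ ⟨a, ha, rfl⟩ ⟨b, hb, rfl⟩
    exact ⟨a + b, add_mem ha hb, by rw [RR_add hΩ (hG a ha) (hG b hb)]; rfl⟩
  zero_mem' := ⟨0, zero_mem G, by
    have h := RR_smul hΩ (0 : ℂ) (zero_mem A)
    rw [zero_smul, zero_smul] at h
    rw [h]
    rfl⟩
  smul_mem' := by
    rintro c _ ⟨a, ha, rfl⟩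
    exact ⟨c • a, smul_mem' c ha, by rw [RR_smul hΩ c (hG a ha)]; rfl⟩

/-- the graph of `p g Ω ↦ η g` -/
noncomputable def gr (hΩ : IsTV A Ω) (hG : ∀ a ∈ G, a ∈ A) (p : H →L[ℂ] H) (η : H) :
    Submodule ℂ (WithLp 2 (H × H)) where
  carrier := {z | ∃ g ∈ G, z = WithLp.toLp 2 ((p (g Ω), RR hΩ g η) : H × H)}
  add_mem' := by
    rintro _ _ ⟨a, ha, rfl⟩ ⟨b, hb, rfl⟩
    refine ⟨a + b, add_mem ha hb, ?_⟩
    rw [RR_add hΩ (hG a ha) (hG b hb), ← WithLp.toLp_add, add_apply, add_apply, map_add]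
    rfl
  zero_mem' := ⟨0, zero_mem G, by
    have h := RR_smul hΩ (0 : ℂ) (zero_mem A)
    rw [zero_smul, zero_smul] at h
    rw [h, zero_apply, zero_apply, map_zero]
    rfl⟩
  smul_mem' := by
    rintro c _ ⟨a, ha, rfl⟩
    refine ⟨c • a, smul_mem' c ha, ?_⟩
    rw [RR_smul hΩ c (hG a ha), ← WithLp.toLp_smul, smul_apply, smul_apply, map_smul]
    rfl

/-- the diagonal action on `H ⊕ H` -/
noncomputable def dg (T : H →L[ℂ] H) : WithLp 2 (H × H) →L[ℂ] WithLp 2 (H × H) :=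
  ((WithLp.prodContinuousLinearEquiv 2 ℂ H H).symm : (H × H) →L[ℂ] WithLp 2 (H × H)) ∘L
    (ContinuousLinearMap.prodMap T T) ∘L
      ((WithLp.prodContinuousLinearEquiv 2 ℂ H H) : WithLp 2 (H × H) →L[ℂ] (H × H))

lemma dg_fst (T : H →L[ℂ] H) (z : WithLp 2 (H × H)) : (dg T z).fst = T z.fst := rfl

lemma dg_snd (T : H →L[ℂ] H) (z : WithLp 2 (H × H)) : (dg T z).snd = T z.snd := rfl

lemma inner2 (z w : WithLp 2 (H × H)) :
    ⟪z, w⟫_ℂ = ⟪z.fst, w.fst⟫_ℂ + ⟪z.snd, w.snd⟫_ℂ := rfl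

lemma dg_inner (T : H →L[ℂ] H) (z w : WithLp 2 (H × H)) :
    ⟪dg T z, w⟫_ℂ = ⟪z, dg (star T) w⟫_ℂ := by
  rw [inner2, inner2, dg_fst, dg_snd, dg_fst, dg_snd, inner_star, inner_star]

lemma ee_mem_basic (hΩ : IsTV A Ω) (hJ : ∀ a ∈ A, J (a Ω) = (star a) Ω) (hG : ∀ a ∈ G, a ∈ A) :
    ee G Ω ∈ basic A G Ω := by
  rw [mem_basic hΩ hJ hG]
  exact fun f hf => ee_right hΩ hG hf

lemma mem_basic_of_mem (hΩ : IsTV A Ω) (hJ : ∀ a ∈ A, J (a Ω) = (star a) Ω)
    (hG : ∀ a ∈ G, a ∈ A) {a : H →L[ℂ] H} (ha : a ∈ A) : a ∈ basic A G Ω := by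
  rw [mem_basic hΩ hJ hG]
  intro q hq
  exact (VonNeumannAlgebra.mem_commutant_iff.1 (RR_mem hΩ (hG q hq)) a ha).symm

lemma tr_p {τ : (H →L[ℂ] H) → ℝ≥0∞} (hτ : IsBasicTrace A G Ω τ) (hG : ∀ a ∈ G, a ∈ A)
    {p : H →L[ℂ] H} (hp : p ∈ G) (hp1 : p * p = p) (hp2 : star p = p) :
    τ (p * ee G Ω) = ENNReal.ofReal (⟪Ω, p Ω⟫_ℂ).re := by
  have h1 := hτ.norm p (hG p hp)
  rw [hp2, hp1] at h1
  have h2 : p * ee G Ω * p = p * ee G Ω := by
    rw [mul_assoc, ← ee_left hp, ← mul_assoc, hp1]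
  rwa [h2] at h1

theorem tr_cyc {τ : (H →L[ℂ] H) → ℝ≥0∞} (hΩ : IsTV A Ω) (hJ : ∀ a ∈ A, J (a Ω) = (star a) Ω)
    (hG : ∀ a ∈ G, a ∈ A) (hτ : IsBasicTrace A G Ω τ) {p : H →L[ℂ] H} (hp : p ∈ G)
    (hp1 : p * p = p) (hp2 : star p = p) {η : H} (hη : RR hΩ p η = η) :
    τ (pr (cyc hΩ hG η)) ≤ ENNReal.ofReal (⟪Ω, p Ω⟫_ℂ).re := by
  rw [← tr_p hτ hG hp hp1 hp2]
  set Γ : Submodule ℂ (WithLp 2 (H × H)) := (gr hΩ hG p η).topologicalClosure with hΓ
  have hcl : ∀ P : WithLp 2 (H × H) → Prop, IsClosed {z | P z} →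
      (∀ g ∈ G, P (WithLp.toLp 2 ((p (g Ω), RR hΩ g η) : H × H))) → ∀ z ∈ Γ, P z := by
    intro P hP h z hz
    have h1 : closure ((gr hΩ hG p η : Submodule ℂ (WithLp 2 (H × H))) : Set (WithLp 2 (H × H)))
        ⊆ {z | P z} := by
      refine closure_minimal ?_ hP
      rintro _ ⟨g, hg, rfl⟩
      exact h g hg
    exact h1 hz
  have hfst : Continuous fun z : WithLp 2 (H × H) => z.fst := (WithLp.fstL 2 ℂ H H).continuous
  have hsnd : Continuous fun z : WithLp 2 (H × H) => z.snd := (WithLp.sndL 2 ℂ H H).continuous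
  -- the graph is invariant
  have hinv : ∀ g ∈ G, ∀ z ∈ Γ, dg (RR hΩ g) z ∈ Γ := by
    intro g hg
    refine hcl (fun z => dg (RR hΩ g) z ∈ Γ) ?_ fun g' hg' => ?_
    · exact (gr hΩ hG p η).isClosed_topologicalClosure.preimage (dg (RR hΩ g)).continuous
    · refine (gr hΩ hG p η).le_topologicalClosure ⟨g' * g, mul_mem hg' hg, ?_⟩
      have h1 : RR hΩ g (p (g' Ω)) = p ((g' * g) Ω) := by
        have h2 := RR_app hΩ (hG g hg) (mul_mem (hG p hp) (hG g' hg'))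
        exact h2
      have h3 : RR hΩ g (RR hΩ g' η) = RR hΩ (g' * g) η := by
        rw [← mulA, RR_mul hΩ (hG g hg) (hG g' hg')]
      rw [← h1, ← h3]
      rfl
  -- closability
  have hclos : ∀ z ∈ Γ, ∀ a ∈ A, ⟪a Ω, z.snd⟫_ℂ = ⟪a (J z.fst), η⟫_ℂ := by
    intro z hz a ha
    refine hcl (fun z => ⟪a Ω, z.snd⟫_ℂ = ⟪a (J z.fst), η⟫_ℂ) ?_ (fun g hg => ?_) z hz
    · exact isClosed_eq (continuous_const.inner hsnd)
        ((a.continuous.comp (J.continuous.comp hfst)).inner continuous_const)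
    · change ⟪a Ω, RR hΩ g η⟫_ℂ = ⟪a (J (p (g Ω))), η⟫_ℂ
      have hpg : p * g ∈ A := mul_mem (hG p hp) (hG g hg)
      have h1 : RR hΩ g η = RR hΩ (p * g) η := by
        rw [← RR_mul hΩ (hG g hg) (hG p hp), mulA, hη]
      have h2 : J (p (g Ω)) = (star (p * g)) Ω := hJ _ hpg
      rw [h1, ← star_inner, RR_star hΩ hpg, RR_app hΩ (star_mem hpg) ha, h2]
  have hinj : ∀ z ∈ Γ, z.fst = 0 → z = 0 := by
    intro z hz h0
    have h1 : z.snd = 0 := by
      refine hΩ.2.2.eq_of_inner_right (𝕜 := ℂ) ?_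
      rintro _ ⟨a, ha, rfl⟩
      rw [hclos z hz a ha, h0, map_zero, map_zero, inner_zero_left, inner_zero_right]
    have h2 : ⟪z, z⟫_ℂ = 0 := by rw [inner2, h0, h1, inner_zero_left, add_zero]
    exact inner_self_eq_zero.1 h2
  have hcomp : CompleteSpace Γ := (gr hΩ hG p η).isClosed_topologicalClosure.completeSpace_coe
  set j : Γ →L[ℂ] H := (WithLp.fstL 2 ℂ H H).comp Γ.subtypeL with hj
  set k : Γ →L[ℂ] H := (WithLp.sndL 2 ℂ H H).comp Γ.subtypeL with hk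
  have hjz : ∀ z : Γ, j z = (z : WithLp 2 (H × H)).fst := fun _ => rfl
  have hkz : ∀ z : Γ, k z = (z : WithLp 2 (H × H)).snd := fun _ => rfl
  set B : H →L[ℂ] H := k.comp (ContinuousLinearMap.adjoint j) with hB
  have hBx : ∀ x, B x = k (ContinuousLinearMap.adjoint j x) := fun _ => rfl
  have hBM : B ∈ basic A G Ω := by
    rw [mem_basic hΩ hJ hG]
    intro g hg
    ext x
    rw [mulA, mulA, hBx, hBx, hkz, hkz]
    set u := ContinuousLinearMap.adjoint j x with hu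
    set u' := ContinuousLinearMap.adjoint j (RR hΩ g x) with hu'
    set w : Γ := ⟨dg (RR hΩ g) u, hinv g hg _ u.2⟩ with hw
    have h1 : u' = w := by
      refine ext_inner_right ℂ fun z => ?_
      rw [hu', ContinuousLinearMap.adjoint_inner_left, hjz]
      have h2 : ⟪w, z⟫_ℂ = ⟪dg (RR hΩ g) (u : WithLp 2 (H × H)), (z : WithLp 2 (H × H))⟫_ℂ := rfl
      set z' : Γ := ⟨dg (RR hΩ (star g)) z, hinv _ (star_mem hg) _ z.2⟩ with hz'
      have h3 : ⟪dg (RR hΩ g) (u : WithLp 2 (H × H)), (z : WithLp 2 (H × H))⟫_ℂ = ⟪u, z'⟫_ℂ := by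
        rw [dg_inner, RR_star hΩ (hG g hg)]
        rfl
      rw [h2, h3, hu, ContinuousLinearMap.adjoint_inner_left, hjz]
      change ⟪RR hΩ g x, (z : WithLp 2 (H × H)).fst⟫_ℂ =
        ⟪x, RR hΩ (star g) (z : WithLp 2 (H × H)).fst⟫_ℂ
      rw [← RR_star hΩ (hG g hg), inner_star]
    rw [h1]
    rfl
  have hQ1 : p * ee G Ω * (p * ee G Ω) = p * ee G Ω := by
    calc p * ee G Ω * (p * ee G Ω) = p * (ee G Ω * p) * ee G Ω := by simp only [mul_assoc]
      _ = p * (p * ee G Ω) * ee G Ω := by rw [ee_left hp]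
      _ = (p * p) * (ee G Ω * ee G Ω) := by simp only [mul_assoc]
      _ = _ := by rw [hp1, ee_idem]
  have hQ2 : star (p * ee G Ω) = p * ee G Ω := by
    rw [star_mul, hp2, ee_self, ee_left hp]
  have hQM : p * ee G Ω ∈ basic A G Ω :=
    mul_mem (mem_basic_of_mem hΩ hJ hG (hG p hp)) (ee_mem_basic hΩ hJ hG)
  have hBQ : B * (p * ee G Ω) = B := by
    ext x
    rw [mulA, hBx, hBx]
    congr 1
    refine ext_inner_right ℂ fun z => ?_
    rw [ContinuousLinearMap.adjoint_inner_left, ContinuousLinearMap.adjoint_inner_left]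
    conv_lhs => rw [← hQ2, star_inner]
    congr 1
    refine hcl (fun z => (p * ee G Ω) z.fst = z.fst) ?_ (fun g hg => ?_) z z.2
    · exact isClosed_eq ((p * ee G Ω).continuous.comp hfst) hfst
    · change (p * ee G Ω) (p (g Ω)) = p (g Ω)
      have h1 : (p * ee G Ω) (p (g Ω)) = p (ee G Ω ((p * g) Ω)) := rfl
      rw [h1, ee_q (mul_mem hp hg)]
      change (p * p) (g Ω) = _
      rw [hp1]
  have hle : pr (cyc hΩ hG η) ≤ pr (rg B) := by
    refine pr_mono ?_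
    rintro _ ⟨g, hg, rfl⟩
    rw [← Submodule.orthogonal_orthogonal_eq_closure, Submodule.mem_orthogonal]
    intro x hx
    have h1 : ContinuousLinearMap.adjoint k x = 0 := by
      have h2 : ((ContinuousLinearMap.adjoint k x : Γ) : WithLp 2 (H × H)).fst = 0 := by
        change j (ContinuousLinearMap.adjoint k x) = 0
        refine ext_inner_left ℂ fun y => ?_
        rw [← ContinuousLinearMap.adjoint_inner_left, ContinuousLinearMap.adjoint_inner_right,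
          inner_zero_right]
        exact (Submodule.mem_orthogonal _ _).1 hx _ ⟨y, rfl⟩
      exact Subtype.ext (hinj _ (ContinuousLinearMap.adjoint k x).2 h2)
    have hz : (WithLp.toLp 2 ((p (g Ω), RR hΩ g η) : H × H)) ∈ Γ :=
      (gr hΩ hG p η).le_topologicalClosure ⟨g, hg, rfl⟩
    have h3 : RR hΩ g η = k ⟨_, hz⟩ := rfl
    rw [h3, ← ContinuousLinearMap.adjoint_inner_left, h1, inner_zero_left]
  have hcM : pr (cyc hΩ hG η) ∈ basic A G Ω := by
    rw [mem_basic hΩ hJ hG]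
    intro g hg
    have h1 : ∀ g ∈ G, ∀ v ∈ cyc hΩ hG η, RR hΩ g v ∈ (cyc hΩ hG η).topologicalClosure := by
      rintro g hg _ ⟨g', hg', rfl⟩
      refine (cyc hΩ hG η).le_topologicalClosure ⟨g' * g, mul_mem hg' hg, ?_⟩
      rw [← mulA, RR_mul hΩ (hG g hg) (hG g' hg')]
    refine proj_comm _ _ (map_closure (h1 g hg)) ?_
    rw [RR_star hΩ (hG g hg)]
    exact map_closure (h1 _ (star_mem hg))
  exact (tr_mono hτ.isTrace hcM (pr_rg_mem hBM) (pr_nonneg _) hle).trans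
    (tr_range hτ.isTrace hBM hQM hQ1 hQ2 hBQ)

end Pool.Agent.Zk50.IE
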