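import Mathlib
import Pool.Agent.Zk50.IE.Cyc

/-!
The subprojections of `e_F` in the basic construction `⟨A, e_F⟩` are the `p e_F`, with `p` a
projection of `F`.
-/

set_option autoImplicit false
open scoped InnerProductSpace ENNReal NNReal
open Filter Topology

namespace Pool.Agent.Zk50.IE

variable {H : Type*} [NormedAddCommGroup H] [InnerProductSpace ℂ H] [CompleteSpace H]
  {A F : VonNeumannAlgebra H} {Ω : H} {J : H ≃ₗᵢ⋆[ℂ] H}

/-- a bounded vector `t` for the cyclic vector `Ω` of `M` is of the form `r Ω` with `r ∈ M'` -/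
lemma exists_ext (M : VonNeumannAlgebra H) (Ω t : H) (C : ℝ)
    (hd : Dense {ξ : H | ∃ x ∈ M, ξ = x Ω}) (hn : ∀ x ∈ M, ‖x t‖ ≤ C * ‖x Ω‖) :
    ∃ r ∈ M.commutant, r Ω = t := by
  set f : M.toStarSubalgebra →ₗ[ℂ] H :=
    { toFun := fun b => (b : H →L[ℂ] H) t
      map_add' := fun _ _ => rfl
      map_smul' := fun _ _ => rfl } with hf
  set e : M.toStarSubalgebra →ₗ[ℂ] H :=
    { toFun := fun b => (b : H →L[ℂ] H) Ω
      map_add' := fun _ _ => rfl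
      map_smul' := fun _ _ => rfl } with he
  have hd' : DenseRange e := by
    refine hd.mono ?_
    rintro _ ⟨b, hb, rfl⟩
    exact ⟨⟨b, hb⟩, rfl⟩
  have hn' : ∃ C, ∀ x, ‖f x‖ ≤ C * ‖e x‖ := ⟨C, fun b => hn b b.2⟩
  set r : H →L[ℂ] H := f.extendOfNorm e with hr
  have hrb : ∀ b ∈ M, r (b Ω) = b t := fun b hb =>
    LinearMap.extendOfNorm_eq hd' hn' ⟨b, hb⟩
  refine ⟨r, ?_, ?_⟩
  · rw [VonNeumannAlgebra.mem_commutant_iff]
    intro c hc
    have h1 : {ξ : H | (c * r) ξ = (r * c) ξ} = Set.univ := by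
      have h2 : IsClosed {ξ : H | (c * r) ξ = (r * c) ξ} :=
        isClosed_eq (c * r).continuous (r * c).continuous
      rw [← h2.closure_eq]
      refine (hd.mono ?_).closure_eq
      rintro _ ⟨b, hb, rfl⟩
      change c (r (b Ω)) = r (c (b Ω))
      rw [hrb b hb]
      exact (hrb (c * b) (mul_mem hc hb)).symm
    ext ξ
    exact (h1 ▸ Set.mem_univ ξ : ξ ∈ {ξ : H | (c * r) ξ = (r * c) ξ})
  · have := hrb 1 (one_mem M)
    simpa using this

lemma J_HH (hJ : ∀ a ∈ A, J (a Ω) = (star a) Ω) (hF : ∀ a ∈ F, a ∈ A) {x : H}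
    (hx : x ∈ HH F Ω) : J x ∈ HH F Ω := by
  have h1 : IsClosed {x : H | J x ∈ HH F Ω} :=
    (orb F Ω).isClosed_topologicalClosure.preimage J.continuous
  have h2 : closure ((orb F Ω : Submodule ℂ H) : Set H) ⊆ {x : H | J x ∈ HH F Ω} := by
    refine closure_minimal ?_ h1
    rintro _ ⟨q, hq, rfl⟩
    change J (q Ω) ∈ HH F Ω
    rw [hJ q (hF q hq)]
    exact mem_HH (star_mem hq)
  exact h2 hx

lemma eq_of_HH {x y : H} (hx : x ∈ HH F Ω) (hy : y ∈ HH F Ω)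
    (h : ∀ f ∈ F, ⟪f Ω, x⟫_ℂ = ⟪f Ω, y⟫_ℂ) : x = y := by
  have h1 : ∀ v ∈ HH F Ω, ⟪v, x - y⟫_ℂ = 0 := by
    intro v hv
    have hcl : IsClosed {v : H | ⟪v, x - y⟫_ℂ = 0} :=
      isClosed_eq (continuous_id.inner continuous_const) continuous_const
    have h2 : closure ((orb F Ω : Submodule ℂ H) : Set H) ⊆ {v : H | ⟪v, x - y⟫_ℂ = 0} := by
      refine closure_minimal ?_ hcl
      rintro _ ⟨q, hq, rfl⟩
      change ⟪q Ω, x - y⟫_ℂ = 0
      rw [inner_sub_right, h q hq, sub_self]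
    exact h2 hv
  have h2 := h1 (x - y) ((HH F Ω).sub_mem hx hy)
  exact sub_eq_zero.1 (inner_self_eq_zero.1 h2)

lemma basic_RR (hΩ : IsTV A Ω) (hJ : ∀ a ∈ A, J (a Ω) = (star a) Ω) (hF : ∀ a ∈ F, a ∈ A)
    {T : H →L[ℂ] H} (hT : T ∈ basic A F Ω) {f : H →L[ℂ] H} (hf : f ∈ F) (x : H) :
    T (RR hΩ f x) = RR hΩ f (T x) := by
  have h1 := (mem_basic hΩ hJ hF).1 hT f hf
  have h2 := congrArg (fun T : H →L[ℂ] H => T x) h1
  exact h2.symm

lemma basic_app (hΩ : IsTV A Ω) (hJ : ∀ a ∈ A, J (a Ω) = (star a) Ω) (hF : ∀ a ∈ F, a ∈ A)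
    {T : H →L[ℂ] H} (hT : T ∈ basic A F Ω) {f : H →L[ℂ] H} (hf : f ∈ F) :
    T (f Ω) = RR hΩ f (T Ω) := by
  rw [← basic_RR hΩ hJ hF hT hf, RR_Ω hΩ (hF f hf)]

/-- `J T Ω = T* Ω` for `T ∈ e_F ⟨A, e_F⟩ e_F` -/
lemma J_basic (hΩ : IsTV A Ω) (hJ : ∀ a ∈ A, J (a Ω) = (star a) Ω) (hF : ∀ a ∈ F, a ∈ A)
    {T : H →L[ℂ] H} (hT : T ∈ basic A F Ω) (h1 : ee F Ω * T = T) (h2 : ee F Ω * star T = star T) :
    J (T Ω) = (star T) Ω := by
  have e1 : T Ω ∈ HH F Ω := by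
    rw [← h1]
    exact ee_apply_mem _
  have e2 : (star T) Ω ∈ HH F Ω := by
    rw [← h2]
    exact ee_apply_mem _
  refine eq_of_HH (J_HH hJ hF e1) e2 fun f hf => ?_
  rw [J_inner' hΩ hJ, hJ f (hF f hf), inner_star T (f Ω) Ω, basic_app hΩ hJ hF hT hf,
    ← inner_star (RR hΩ f) (T Ω) Ω, RR_star hΩ (hF f hf), RR_Ω hΩ (star_mem (hF f hf))]

theorem exists_p (hΩ : IsTV A Ω) (hJ : ∀ a ∈ A, J (a Ω) = (star a) Ω) (hF : ∀ a ∈ F, a ∈ A)
    {P : H →L[ℂ] H} (hP : P ∈ basic A F Ω) (hP1 : P * P = P) (hP2 : star P = P)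
    (hP3 : ee F Ω * P = P) : ∃ p ∈ F, p * p = p ∧ star p = p ∧ p * ee F Ω = P := by
  set e := ee F Ω with he
  have heM : e ∈ basic A F Ω := ee_mem_basic hΩ hJ hF
  have hP4 : P * e = P := left_of_right hP2 ee_self hP3
  have hee : e * e = e := ee_idem
  set u : H →L[ℂ] H := P + P - e with hu
  have huM : u ∈ basic A F Ω := sub_mem (add_mem hP hP) heM
  have hus : star u = u := by rw [hu, star_sub, star_add, hP2, ee_self]
  have hue : e * u = u := by rw [hu, mul_sub, mul_add, hP3, hee]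
  have huu : u * u = e := by
    rw [hu, sub_mul, add_mul, mul_sub, mul_sub, mul_add, mul_add, hP1, hP4, hP3, hee]
    abel
  set t := u Ω with ht
  have hJt : J t = t := by
    have h := J_basic hΩ hJ hF huM hue (by rw [hus]; exact hue)
    rwa [hus] at h
  have htH : t ∈ HH F Ω := by
    rw [ht, ← hue]
    exact ee_apply_mem _
  have het : e t = t := ee_of_mem htH
  have hut : u t = Ω := by
    rw [ht, ← mulA, huu]
    exact ee_Ω
  have hJΩ : J Ω = Ω := by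
    have h := hJ 1 (one_mem A)
    rw [star_one] at h
    exact h
  -- the key identity
  have key : ∀ y ∈ F.commutant, ⟪t, y t⟫_ℂ = ⟪Ω, y Ω⟫_ℂ := by
    intro y hy
    have h1 : ∀ v ∈ HH F Ω, ⟪t, y v⟫_ℂ = ⟪J (u v), y Ω⟫_ℂ := by
      intro v hv
      have hcl : IsClosed {v : H | ⟪t, y v⟫_ℂ = ⟪J (u v), y Ω⟫_ℂ} :=
        isClosed_eq (continuous_const.inner y.continuous)
          ((J.continuous.comp u.continuous).inner continuous_const)
      have h2 : closure ((orb F Ω : Submodule ℂ H) : Set H) ⊆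
          {v : H | ⟪t, y v⟫_ℂ = ⟪J (u v), y Ω⟫_ℂ} := by
        refine closure_minimal ?_ hcl
        rintro _ ⟨f, hf, rfl⟩
        change ⟪t, y (f Ω)⟫_ℂ = ⟪J (u (f Ω)), y Ω⟫_ℂ
        rw [comm_app hy hf, basic_app hΩ hJ hF huM hf, J_RR hΩ hJ (hF f hf), hJt, star_inner]
      exact h2 hv
    rw [h1 t htH, hut, hJΩ]
  have hnorm : ∀ x ∈ F.commutant, ‖x t‖ ≤ 1 * ‖x Ω‖ := by
    intro x hx
    have h1 := key (star x * x) (mul_mem (star_mem hx) hx)
    rw [mulA, mulA, inner_star, inner_star, inner_self_eq_norm_sq_to_K,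
      inner_self_eq_norm_sq_to_K] at h1
    have h3 : ‖x t‖ ^ 2 = ‖x Ω‖ ^ 2 := by exact_mod_cast h1
    rw [one_mul]
    exact ((pow_left_inj₀ (norm_nonneg _) (norm_nonneg _) (by norm_num)).1 h3).le
  have hdense : Dense {ξ : H | ∃ x ∈ F.commutant, ξ = x Ω} := by
    refine hΩ.2.2.mono ?_
    rintro _ ⟨a, ha, rfl⟩
    refine ⟨RR hΩ a, ?_, (RR_Ω hΩ ha).symm⟩
    rw [VonNeumannAlgebra.mem_commutant_iff]
    intro g hg
    exact VonNeumannAlgebra.mem_commutant_iff.1 (RR_mem hΩ ha) g (hF g hg)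
  obtain ⟨r, hr, hrΩ⟩ := exists_ext F.commutant Ω t 1 hdense hnorm
  rw [VonNeumannAlgebra.commutant_commutant] at hr
  set p : H →L[ℂ] H := (1 / 2 : ℂ) • (1 + r) with hp
  have hpF : p ∈ F := smul_mem' _ (add_mem (one_mem F) hr)
  have hpΩ : p Ω = P Ω := by
    have h1 : p Ω = (1 / 2 : ℂ) • (Ω + r Ω) := rfl
    have h2 : u Ω = P Ω + P Ω - e Ω := rfl
    rw [h1, hrΩ, ht, h2, he, ee_Ω, add_sub_cancel, ← two_smul ℂ (P Ω), smul_smul]
    norm_num
  have hpe : p * e = P := by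
    have h1 : ∀ v ∈ HH F Ω, p v = P v := by
      refine eqOn_closure ?_
      rintro _ ⟨f, hf, rfl⟩
      rw [basic_app hΩ hJ hF hP hf, ← hpΩ,
        basic_app hΩ hJ hF (mem_basic_of_mem hΩ hJ hF (hF p hpF)) hf]
    ext x
    rw [mulA, h1 _ (ee_apply_mem x), ← mulA, ← he, hP4]
  refine ⟨p, hpF, ?_, ?_, hpe⟩
  · refine separating hΩ (hF _ (mul_mem hpF hpF)) (hF p hpF) ?_
    rw [mulA, hpΩ]
    have h1 : P Ω = e (P Ω) := by
      rw [← mulA, hP3]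
    rw [h1, ← mulA p e, hpe, ← mulA P P, hP1, ← h1]
  · refine separating hΩ (hF _ (star_mem hpF)) (hF p hpF) ?_
    have h1 : star p * e = P := by
      have h2 := congrArg star hpe
      rw [star_mul, hP2, ee_self] at h2
      rw [he, ee_left (star_mem hpF)]
      exact h2
    rw [hpΩ, ← h1, mulA, he, ee_Ω]

end Pool.Agent.Zk50.IE
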