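import Mathlib
import Pool.Agent.Zk50.IE.LemP

/-!
The key inequality: for a right `F`-module `V`, the closed right `G`-module generated by `V` has
`G`-trace at most the `F`-trace of `V`.
-/

set_option autoImplicit false
open scoped InnerProductSpace ENNReal NNReal
open Filter Topology

namespace Pool.Agent.Zk50.IE

variable {H : Type*} [NormedAddCommGroup H] [InnerProductSpace ℂ H] [CompleteSpace H]
  {A F G : VonNeumannAlgebra H} {Ω : H} {J : H ≃ₗᵢ⋆[ℂ] H}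

/-- `V` is invariant under the right action of `F` -/
def RInv (hΩ : IsTV A Ω) (F : VonNeumannAlgebra H) (V : Submodule ℂ H) : Prop :=
  ∀ f ∈ F, ∀ v ∈ V, RR hΩ f v ∈ V

/-- the span of `V G` -/
noncomputable def ext (hΩ : IsTV A Ω) (G : VonNeumannAlgebra H) (V : Submodule ℂ H) :
    Submodule ℂ H :=
  ⨆ g : {g : H →L[ℂ] H // g ∈ G}, V.map (RR hΩ g : H →ₗ[ℂ] H)

lemma mem_ext (hΩ : IsTV A Ω) {V : Submodule ℂ H} {g : H →L[ℂ] H} (hg : g ∈ G) {v : H}
    (hv : v ∈ V) : RR hΩ g v ∈ ext hΩ G V :=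
  (le_iSup (fun g : {g : H →L[ℂ] H // g ∈ G} => V.map (RR hΩ g : H →ₗ[ℂ] H)) ⟨g, hg⟩)
    ⟨v, hv, rfl⟩

lemma ext_le (hΩ : IsTV A Ω) {V W : Submodule ℂ H} (h : ∀ g ∈ G, ∀ v ∈ V, RR hΩ g v ∈ W) :
    ext hΩ G V ≤ W := by
  refine iSup_le fun g => ?_
  rintro _ ⟨v, hv, rfl⟩
  exact h g g.2 v hv

lemma le_ext (hΩ : IsTV A Ω) (V : Submodule ℂ H) : V ≤ ext hΩ G V := by
  intro v hv
  have h1 := mem_ext hΩ (one_mem G) hv
  rw [RR_one] at h1
  exact h1

lemma ext_inv (hΩ : IsTV A Ω) (hG : ∀ a ∈ G, a ∈ A) (V : Submodule ℂ H) :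
    RInv hΩ G (ext hΩ G V) := by
  intro g hg x hx
  have h1 : ext hΩ G V ≤ (ext hΩ G V).comap (RR hΩ g : H →ₗ[ℂ] H) := by
    refine ext_le hΩ fun g' hg' v hv => ?_
    change RR hΩ g (RR hΩ g' v) ∈ ext hΩ G V
    rw [← mulA, RR_mul hΩ (hG g hg) (hG g' hg')]
    exact mem_ext hΩ (mul_mem hg' hg) hv
  exact h1 hx

lemma ext_mono (hΩ : IsTV A Ω) {V W : Submodule ℂ H} (h : V ≤ W) : ext hΩ G V ≤ ext hΩ G W :=
  ext_le hΩ fun _ hg _ hv => mem_ext hΩ hg (h hv)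

lemma ext_closure (hΩ : IsTV A Ω) {V W : Submodule ℂ H} (h : ∀ v ∈ V, v ∈ W.topologicalClosure) :
    ∀ v ∈ ext hΩ G V, v ∈ (ext hΩ G W).topologicalClosure := by
  refine ext_le hΩ fun g hg v hv => ?_
  exact map_closure (T := RR hΩ g)
    (fun w hw => (ext hΩ G W).le_topologicalClosure (mem_ext hΩ hg hw)) v (h v hv)

lemma ext_sup (hΩ : IsTV A Ω) (V W : Submodule ℂ H) :
    ext hΩ G (V ⊔ W) ≤ ext hΩ G V ⊔ ext hΩ G W := by
  refine ext_le hΩ fun g hg x hx => ?_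
  obtain ⟨v, hv, w, hw, rfl⟩ := Submodule.mem_sup.1 hx
  rw [map_add]
  exact add_mem (Submodule.mem_sup_left (mem_ext hΩ hg hv))
    (Submodule.mem_sup_right (mem_ext hΩ hg hw))

lemma ext_sSup (hΩ : IsTV A Ω) {c : Set (Submodule ℂ H)} (hne : c.Nonempty)
    (hc : DirectedOn (· ≤ ·) c) : ext hΩ G (sSup c) = sSup (ext hΩ G '' c) := by
  refine le_antisymm (ext_le hΩ fun g hg x hx => ?_) (sSup_le ?_)
  · obtain ⟨V, hV, hx⟩ := (Submodule.mem_sSup_of_directed hne hc).1 hx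
    have h1 : ext hΩ G V ≤ sSup (ext hΩ G '' c) := le_sSup ⟨V, hV, rfl⟩
    exact h1 (mem_ext hΩ hg hx)
  · rintro _ ⟨V, hV, rfl⟩
    exact ext_mono hΩ (le_sSup hV)

lemma pr_mem_basic (hΩ : IsTV A Ω) (hJ : ∀ a ∈ A, J (a Ω) = (star a) Ω) (hF : ∀ a ∈ F, a ∈ A)
    {V : Submodule ℂ H} (hV : RInv hΩ F V) : pr V ∈ basic A F Ω := by
  rw [mem_basic hΩ hJ hF]
  intro f hf
  refine proj_comm _ _ (map_closure fun v hv => V.le_topologicalClosure (hV f hf v hv)) ?_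
  rw [RR_star hΩ (hF f hf)]
  exact map_closure fun v hv => V.le_topologicalClosure (hV _ (star_mem hf) v hv)

lemma RInv_closure (hΩ : IsTV A Ω) {V : Submodule ℂ H} (hV : RInv hΩ F V) :
    RInv hΩ F V.topologicalClosure := fun f hf =>
  map_closure fun v hv => V.le_topologicalClosure (hV f hf v hv)

lemma RInv_orth (hΩ : IsTV A Ω) (hF : ∀ a ∈ F, a ∈ A) {V : Submodule ℂ H} (hV : RInv hΩ F V) :
    RInv hΩ F Vᗮ := by
  intro f hf x hx
  rw [Submodule.mem_orthogonal] at hx ⊢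
  intro v hv
  rw [← star_inner, RR_star hΩ (hF f hf)]
  exact hx _ (hV _ (star_mem hf) v hv)

lemma RInv_sup (hΩ : IsTV A Ω) {V W : Submodule ℂ H} (hV : RInv hΩ F V) (hW : RInv hΩ F W) :
    RInv hΩ F (V ⊔ W) := by
  intro f hf x hx
  obtain ⟨v, hv, w, hw, rfl⟩ := Submodule.mem_sup.1 hx
  rw [map_add]
  exact add_mem (Submodule.mem_sup_left (hV f hf v hv)) (Submodule.mem_sup_right (hW f hf w hw))

/-- the cyclic building blocks -/
lemma block {τF τG : (H →L[ℂ] H) → ℝ≥0∞} (hΩ : IsTV A Ω) (hJ : ∀ a ∈ A, J (a Ω) = (star a) Ω)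
    (hF : ∀ a ∈ F, a ∈ A) (hG : ∀ a ∈ G, a ∈ A) (hFG : ∀ a ∈ F, a ∈ G)
    (hτF : IsBasicTrace A F Ω τF) (hτG : IsBasicTrace A G Ω τG) {w : H →L[ℂ] H}
    (hw : w ∈ basic A F Ω) (hw1 : Pr (basic A F Ω) (star w * w))
    (hw2 : ee F Ω * (star w * w) = star w * w) :
    τG (pr (ext hΩ G (rg w))) ≤ τF (pr (rg w)) := by
  have hwpi : w * (star w * w) = w := pi_mul hw1.2.1 rfl
  obtain ⟨p, hp, hp1, hp2, hpe⟩ := exists_p hΩ hJ hF hw1.1 hw1.2.1 hw1.2.2 hw2
  have hη : RR hΩ p (w Ω) = w Ω := by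
    rw [← basic_RR hΩ hJ hF hw hp, RR_Ω hΩ (hF p hp)]
    have h1 : p Ω = (star w * w) Ω := by
      rw [← hpe, mulA, ee_Ω]
    rw [h1, ← mulA, hwpi]
  have hwe : w * ee F Ω = w := by
    have h1 : (star w * w) * ee F Ω = star w * w := left_of_right hw1.2.2 ee_self hw2
    calc w * ee F Ω = w * (star w * w) * ee F Ω := by rw [hwpi]
      _ = w * ((star w * w) * ee F Ω) := by rw [mul_assoc]
      _ = w := by rw [h1, hwpi]
  have hinv : RInv hΩ F (rg w) := by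
    rintro f hf _ ⟨y, rfl⟩
    refine ⟨RR hΩ f y, ?_⟩
    exact basic_RR hΩ hJ hF hw hf y
  have hle : pr (ext hΩ G (rg w)) ≤ pr (cyc hΩ hG (w Ω)) := by
    refine pr_mono ?_
    refine ext_le hΩ ?_
    rintro g hg _ ⟨y, rfl⟩
    change RR hΩ g (w y) ∈ _
    have h1 : w y = w (ee F Ω y) := by rw [← mulA, hwe]
    rw [h1]
    refine map_closure (T := RR hΩ g * w) (V := orb F Ω) (W := cyc hΩ hG (w Ω)) ?_ _
      (ee_apply_mem y)
    rintro _ ⟨f, hf, rfl⟩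
    refine (cyc hΩ hG (w Ω)).le_topologicalClosure ⟨f * g, mul_mem (hFG f hf) hg, ?_⟩
    rw [mulA, basic_app hΩ hJ hF hw hf, ← mulA, RR_mul hΩ (hG g hg) (hF f hf)]
  have hcinv : RInv hΩ G (cyc hΩ hG (w Ω)) := by
    rintro g hg _ ⟨g', hg', rfl⟩
    refine ⟨g' * g, mul_mem hg' hg, ?_⟩
    rw [← mulA, RR_mul hΩ (hG g hg) (hG g' hg')]
  calc τG (pr (ext hΩ G (rg w))) ≤ τG (pr (cyc hΩ hG (w Ω))) :=
        tr_mono hτG.isTrace (pr_mem_basic hΩ hJ hG (ext_inv hΩ hG _))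
          (pr_mem_basic hΩ hJ hG hcinv) (pr_nonneg _) hle
    _ ≤ ENNReal.ofReal (⟪Ω, p Ω⟫_ℂ).re :=
        tr_cyc hΩ hJ hG hτG (hFG p hp) hp1 hp2 hη
    _ = τF (star w * w) := by rw [← tr_p hτF hF hp hp1 hp2, hpe]
    _ = τF (w * star w) := hτF.isTrace.trace w hw
    _ ≤ τF (pr (rg w)) := by
        have hf := pi_final hw1.2.1 (rfl : star w * w = star w * w)
        refine tr_mono hτF.isTrace (mul_mem hw (star_mem hw)) (pr_rg_mem hw)
          (mul_star_self_nonneg w) ?_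
        refine le_of_mul hf.1 hf.2 (pr_idem _) (pr_star _) ?_
        ext x
        rw [mulA]
        exact pr_of_mem' ⟨(star w) x, rfl⟩

/-- **Key inequality.** -/
theorem key {τF τG : (H →L[ℂ] H) → ℝ≥0∞} (hΩ : IsTV A Ω) (hJ : ∀ a ∈ A, J (a Ω) = (star a) Ω)
    (hF : ∀ a ∈ F, a ∈ A) (hG : ∀ a ∈ G, a ∈ A) (hFG : ∀ a ∈ F, a ∈ G)
    (hτF : IsBasicTrace A F Ω τF) (hτG : IsBasicTrace A G Ω τG) {V : Submodule ℂ H}
    (hV : RInv hΩ F V) : τG (pr (ext hΩ G V)) ≤ τF (pr V) := by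
  set s : Set (Submodule ℂ H) := {W | W ≤ V.topologicalClosure ∧ RInv hΩ F W ∧
    τG (pr (ext hΩ G W)) ≤ τF (pr W)} with hs
  have hchain : ∀ c ⊆ s, IsChain (· ≤ ·) c → ∃ ub ∈ s, ∀ z ∈ c, z ≤ ub := by
    intro c hcs hc
    rcases c.eq_empty_or_nonempty with rfl | hne
    · refine ⟨⊥, ⟨bot_le, ?_, ?_⟩, fun z hz => absurd hz (Set.notMem_empty z)⟩
      · intro f _ v hv
        rw [Submodule.mem_bot] at hv ⊢
        rw [hv, map_zero]
      · have h1 : ext hΩ G (⊥ : Submodule ℂ H) ≤ ⊥ := by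
          refine ext_le hΩ fun g _ v hv => ?_
          rw [Submodule.mem_bot] at hv ⊢
          rw [hv, map_zero]
        have h2 : pr (ext hΩ G (⊥ : Submodule ℂ H)) = 0 := by
          have h3 : (1 : H →L[ℂ] H) * pr (ext hΩ G (⊥ : Submodule ℂ H)) = 0 :=
            mul_pr_zero fun v hv => (Submodule.mem_bot ℂ).1 (h1 hv)
          rwa [one_mul] at h3
        rw [h2, tr_zero hτG.isTrace]
        exact bot_le
    · have hd : DirectedOn (· ≤ ·) c := hc.directedOn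
      have hinv : RInv hΩ F (sSup c) := by
        intro f hf v hv
        obtain ⟨W, hW, hvW⟩ := (Submodule.mem_sSup_of_directed hne hd).1 hv
        exact (le_sSup hW : W ≤ sSup c) ((hcs hW).2.1 f hf v hvW)
      refine ⟨sSup c, ⟨sSup_le fun W hW => (hcs hW).1, hinv, ?_⟩, fun z hz => le_sSup hz⟩
      have he := ext_sSup (G := G) hΩ hne hd
      have hM' : pr (sSup (ext hΩ G '' c)) ∈ basic A G Ω := by
        rw [← he]
        exact pr_mem_basic hΩ hJ hG (ext_inv hΩ hG _)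
      rw [he]
      refine tr_dir hτG.isTrace (hne.image _) ?_ ?_ hM' ?_
      · rintro _ ⟨W, hW, rfl⟩ _ ⟨W', hW', rfl⟩
        obtain ⟨Z, hZ, h1, h2⟩ := hd W hW W' hW'
        exact ⟨_, ⟨Z, hZ, rfl⟩, ext_mono hΩ h1, ext_mono hΩ h2⟩
      · rintro _ ⟨W, hW, rfl⟩
        exact pr_mem_basic hΩ hJ hG (ext_inv hΩ hG _)
      · rintro _ ⟨W, hW, rfl⟩
        refine (hcs hW).2.2.trans ?_
        refine tr_mono hτF.isTrace (pr_mem_basic hΩ hJ hF (hcs hW).2.1)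
          (pr_mem_basic hΩ hJ hF hinv) (pr_nonneg _) (pr_mono fun v hv => ?_)
        exact (sSup c).le_topologicalClosure ((le_sSup hW : W ≤ sSup c) hv)
  obtain ⟨V₀, hV₀⟩ := zorn_le₀ s hchain
  obtain ⟨h01, h02, h03⟩ := hV₀.prop
  have hVV : ∀ v ∈ V, v ∈ V₀.topologicalClosure := by
    by_contra hcon
    push Not at hcon
    obtain ⟨v₁, hv₁, hv₁'⟩ := hcon
    set V₂ : Submodule ℂ H := V.topologicalClosure ⊓ V₀ᗮ with hV₂
    have hV₂cl : IsClosed (V₂ : Set H) := by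
      have h1 : IsClosed (V.topologicalClosure : Set H) := V.isClosed_topologicalClosure
      have h2 : IsClosed (V₀ᗮ : Set H) := V₀.isClosed_orthogonal
      exact h1.inter h2
    have hV₂c : V₂.topologicalClosure = V₂ := hV₂cl.submodule_topologicalClosure_eq
    have hV₂i : RInv hΩ F V₂ := fun f hf v hv =>
      ⟨RInv_closure hΩ hV f hf v hv.1, RInv_orth hΩ hF h02 f hf v hv.2⟩
    set x := v₁ - pr V₀ v₁ with hx
    have hx0 : x ≠ 0 := by
      intro h0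
      rw [hx, sub_eq_zero] at h0
      exact hv₁' (h0 ▸ pr_apply_mem V₀ v₁)
    have hxV₂ : x ∈ V₂ := by
      refine ⟨?_, ?_⟩
      · refine (V.topologicalClosure).sub_mem (V.le_topologicalClosure hv₁) ?_
        have h1 : V₀.topologicalClosure ≤ V.topologicalClosure :=
          V₀.topologicalClosure_minimal h01 V.isClosed_topologicalClosure
        exact h1 (pr_apply_mem V₀ v₁)
      · have h1 : x ∈ V₀.topologicalClosureᗮ :=
          V₀.topologicalClosure.sub_starProjection_mem_orthogonal v₁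
        exact Submodule.orthogonal_le V₀.le_topologicalClosure h1
    obtain ⟨a, ha, hax⟩ : ∃ a ∈ A, ⟪x, a Ω⟫_ℂ ≠ 0 := by
      by_contra hcon
      push Not at hcon
      apply hx0
      refine hΩ.2.2.eq_of_inner_left (𝕜 := ℂ) ?_
      rintro _ ⟨a, ha, rfl⟩
      rw [hcon a ha, inner_zero_left]
    set M := basic A F Ω with hM
    set X : H →L[ℂ] H := pr V₂ * a * ee F Ω with hX
    have hXM : X ∈ M := mul_mem (mul_mem (pr_mem_basic hΩ hJ hF hV₂i)
      (mem_basic_of_mem hΩ hJ hF ha)) (ee_mem_basic hΩ hJ hF)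
    have hX0 : X ≠ 0 := by
      intro h0
      apply hax
      have h1 : X Ω = 0 := by rw [h0]; rfl
      have h2 : X Ω = pr V₂ (a Ω) := by
        rw [hX, mulA, ee_Ω, mulA]
      have h3 : ⟪x, a Ω⟫_ℂ = ⟪x, pr V₂ (a Ω)⟫_ℂ := by
        rw [← star_inner (pr V₂) x (a Ω), pr_star, pr_of_mem' hxV₂]
      rw [h3, ← h2, h1, inner_zero_right]
    obtain ⟨w, hw, hw1, hw2, hw3, hw4, hw5⟩ := exists_polar M hXM
    have hwe : w * ee F Ω = w := by
      have h1 : w * (1 - ee F Ω) = 0 := by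
        refine hw3 _ ?_
        rw [mul_sub, mul_one, hX, mul_assoc (pr V₂ * a), ee_idem, sub_self]
      rw [mul_sub, mul_one, sub_eq_zero] at h1
      exact h1.symm
    have hwV : pr V₂ * w = w := by
      have h1 : (1 - pr V₂) * w = 0 := by
        refine hw4 _ ?_
        rw [sub_mul, one_mul, hX, ← mul_assoc, ← mul_assoc, pr_idem, sub_self]
      rw [sub_mul, one_mul, sub_eq_zero] at h1
      exact h1.symm
    have hw0 : w ≠ 0 := by
      intro h0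
      apply hX0
      rw [← hw5, h0]
      simp
    have hwee : ee F Ω * (star w * w) = star w * w := by
      have h1 : (star w * w) * ee F Ω = star w * w := by rw [mul_assoc, hwe]
      have h2 := congrArg star h1
      rwa [star_mul, hw1.2.2, ee_self] at h2
    have hb := block hΩ hJ hF hG hFG hτF hτG hw hw1 hwee
    have hV₁V₂ : rg w ≤ V₂ := by
      rintro _ ⟨y, rfl⟩
      change w y ∈ V₂
      have h1 : pr V₂ (w y) ∈ V₂.topologicalClosure := pr_apply_mem V₂ _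
      rw [← mulA, hwV, hV₂c] at h1
      exact h1
    have hV₁i : RInv hΩ F (rg w) := by
      rintro f hf _ ⟨y, rfl⟩
      exact ⟨RR hΩ f y, basic_RR hΩ hJ hF hw hf y⟩
    have hsup : V₀ ⊔ rg w ∈ s := by
      have hi := RInv_sup hΩ h02 hV₁i
      refine ⟨sup_le h01 (hV₁V₂.trans inf_le_left), hi, ?_⟩
      have hpe : pr (ext hΩ G V₀ ⊔ ext hΩ G (rg w)) ∈ basic A G Ω :=
        pr_mem_basic hΩ hJ hG (RInv_sup hΩ (ext_inv hΩ hG _) (ext_inv hΩ hG _))
      calc τG (pr (ext hΩ G (V₀ ⊔ rg w))) ≤ τG (pr (ext hΩ G V₀ ⊔ ext hΩ G (rg w))) := by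
            refine tr_mono hτG.isTrace (pr_mem_basic hΩ hJ hG (ext_inv hΩ hG _)) hpe
              (pr_nonneg _) (pr_mono fun v hv => ?_)
            exact Submodule.le_topologicalClosure _ (ext_sup hΩ _ _ hv)
        _ ≤ τG (pr (ext hΩ G V₀)) + τG (pr (ext hΩ G (rg w))) :=
            tr_sup hτG.isTrace (pr_mem_basic hΩ hJ hG (ext_inv hΩ hG _))
              (pr_mem_basic hΩ hJ hG (ext_inv hΩ hG _)) hpe
        _ ≤ τF (pr V₀) + τF (pr (rg w)) := add_le_add h03 hb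
        _ ≤ τF (pr (V₀ ⊔ rg w)) := by
            refine tr_orth hτF.isTrace (pr_mem_basic hΩ hJ hF h02)
              (pr_mem_basic hΩ hJ hF hV₁i) (pr_mem_basic hΩ hJ hF hi) ?_
            intro v hv y hy
            exact (Submodule.mem_orthogonal _ _).1 (hV₁V₂ hy).2 v hv
    have hmax : V₀ ⊔ rg w ≤ V₀ := hV₀.le_of_ge hsup le_sup_left
    apply hw0
    ext y
    have h1 : w y ∈ V₀ := hmax (Submodule.mem_sup_right ⟨y, rfl⟩)
    have h2 : w y ∈ V₀ᗮ := (hV₁V₂ ⟨y, rfl⟩).2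
    have h3 := (Submodule.mem_orthogonal _ _).1 h2 _ h1
    simpa using inner_self_eq_zero.1 h3
  calc τG (pr (ext hΩ G V)) ≤ τG (pr (ext hΩ G V₀)) :=
        tr_mono hτG.isTrace (pr_mem_basic hΩ hJ hG (ext_inv hΩ hG _))
          (pr_mem_basic hΩ hJ hG (ext_inv hΩ hG _)) (pr_nonneg _) (pr_mono (ext_closure hΩ hVV))
    _ ≤ τF (pr V₀) := h03
    _ ≤ τF (pr V) := tr_mono hτF.isTrace (pr_mem_basic hΩ hJ hF h02)
          (pr_mem_basic hΩ hJ hF hV) (pr_nonneg _) (pr_mono h01)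

end Pool.Agent.Zk50.IE
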