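import Mathlib
import Pool.Agent.Zk50.IE.Key

/-!
Isometric extensions over intermediate systems: the main theorem.
-/

set_option autoImplicit false
open scoped InnerProductSpace ENNReal NNReal
open Filter Topology

namespace Pool.Agent.Zk50.IE

variable {H : Type*} [NormedAddCommGroup H] [InnerProductSpace ℂ H] [CompleteSpace H]
  {A F G : VonNeumannAlgebra H} {Ω : H} {J : H ≃ₗᵢ⋆[ℂ] H} {U : H ≃ₗᵢ[ℂ] H}

lemma conj_app (U : H ≃ₗᵢ[ℂ] H) (a : H →L[ℂ] H) (x : H) : conj U a (U x) = U (a x) := by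
  change U (a (U.symm (U x))) = U (a x)
  rw [U.symm_apply_apply]

lemma conj_Ω (hU : U Ω = Ω) (a : H →L[ℂ] H) : U (a Ω) = conj U a Ω := by
  rw [← conj_app, hU]

lemma conj_conj (U : H ≃ₗᵢ[ℂ] H) (a : H →L[ℂ] H) : conj U (conj U.symm a) = a := by
  ext x
  change U (U.symm (a (U.symm.symm (U.symm x)))) = a x
  rw [U.apply_symm_apply]
  congr 1
  change U (U.symm x) = x
  rw [U.apply_symm_apply]

lemma U_RR (hΩ : IsTV A Ω) (hU : U Ω = Ω) (hUA : ∀ a ∈ A, conj U a ∈ A) {g : H →L[ℂ] H}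
    (hg : g ∈ A) (x : H) : U (RR hΩ g x) = RR hΩ (conj U g) (U x) := by
  refine dense_ind hΩ (P := fun x => U (RR hΩ g x) = RR hΩ (conj U g) (U x))
    (isClosed_eq (U.continuous.comp (RR hΩ g).continuous)
      ((RR hΩ (conj U g)).continuous.comp U.continuous)) (fun a ha => ?_) x
  change U (RR hΩ g (a Ω)) = RR hΩ (conj U g) (U (a Ω))
  rw [RR_app hΩ hg ha, conj_Ω hU a, RR_app hΩ (hUA g hg) (hUA a ha), ← conj_Ω hU g, conj_app]

/-- the part of `V G` orthogonal to `H_G` -/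
noncomputable def WW (hΩ : IsTV A Ω) (G : VonNeumannAlgebra H) (V : Submodule ℂ H) :
    Submodule ℂ H :=
  (ext hΩ G V).map ((1 - ee G Ω : H →L[ℂ] H) : H →ₗ[ℂ] H)

lemma WW_inv (hΩ : IsTV A Ω) (hG : ∀ a ∈ G, a ∈ A) (V : Submodule ℂ H) :
    RInv hΩ G (WW hΩ G V) := by
  rintro g hg _ ⟨y, hy, rfl⟩
  refine ⟨RR hΩ g y, ext_inv hΩ hG V g hg y hy, ?_⟩
  change (1 - ee G Ω) (RR hΩ g y) = RR hΩ g ((1 - ee G Ω) y)
  rw [← mulA, ← mulA, sub_mul, mul_sub, one_mul, mul_one, ee_right hΩ hG hg]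

lemma U_WW (hΩ : IsTV A Ω) (hG : ∀ a ∈ G, a ∈ A) (hU : U Ω = Ω) (hUA : ∀ a ∈ A, conj U a ∈ A)
    (hUG : ∀ a ∈ G, conj U a ∈ G) (hUG' : ∀ a ∈ G, conj U.symm a ∈ G) {V : Submodule ℂ H}
    (hV : ∀ v ∈ V, U v ∈ V) :
    ∀ x ∈ (WW hΩ G V).topologicalClosure, U x ∈ (WW hΩ G V).topologicalClosure := by
  have hU' : U.symm Ω = Ω := by
    conv_lhs => rw [← hU]
    rw [U.symm_apply_apply]
  set T : H →L[ℂ] H := (U.toContinuousLinearEquiv : H →L[ℂ] H) with hT
  have hTx : ∀ x, T x = U x := fun _ => rfl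
  have hTs : star T = (U.symm.toContinuousLinearEquiv : H →L[ℂ] H) := by
    ext x
    refine ext_inner_right ℂ fun y => ?_
    rw [star_inner, hTx]
    change ⟪x, U y⟫_ℂ = ⟪U.symm x, y⟫_ℂ
    rw [← U.inner_map_map (U.symm x) y, U.apply_symm_apply]
  have hTe : T * ee G Ω = ee G Ω * T := by
    refine ee_comm (fun q hq => ?_) fun q hq => ?_
    · rw [hTx, conj_Ω hU]
      exact mem_HH (hUG q hq)
    · rw [hTs]
      change U.symm (q Ω) ∈ HH G Ω
      rw [conj_Ω hU']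
      exact mem_HH (hUG' q hq)
  have hext : ∀ y ∈ ext hΩ G V, T y ∈ ext hΩ G V := by
    have h1 : ext hΩ G V ≤ (ext hΩ G V).comap (T : H →ₗ[ℂ] H) := by
      refine ext_le hΩ fun g hg v hv => ?_
      change U (RR hΩ g v) ∈ ext hΩ G V
      rw [U_RR hΩ hU hUA (hG g hg)]
      exact mem_ext hΩ (hUG g hg) (hV v hv)
    exact fun y hy => h1 hy
  refine map_closure (T := T) ?_
  rintro _ ⟨y, hy, rfl⟩
  refine (WW hΩ G V).le_topologicalClosure ⟨T y, hext y hy, ?_⟩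
  change (1 - ee G Ω) (T y) = T ((1 - ee G Ω) y)
  rw [← mulA, ← mulA, sub_mul, mul_sub, one_mul, mul_one, hTe]

lemma RInv_of (hΩ : IsTV A Ω) (hJ : ∀ a ∈ A, J (a Ω) = (star a) Ω) (hF : ∀ a ∈ F, a ∈ A)
    {V : Submodule ℂ H} (h : ∀ f ∈ F, ∀ v ∈ V, J ((star f) (J v)) ∈ V) : RInv hΩ F V := by
  intro f hf v hv
  rw [← RR_eq_J hΩ hJ (hF f hf)]
  exact h f hf v hv

lemma module_WW {τF τG : (H →L[ℂ] H) → ℝ≥0∞} (hΩ : IsTV A Ω)
    (hA : IsSystem A Ω U J) (hF : IsSubsystem A U F) (hG : IsSubsystem A U G)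
    (hFG : ∀ a ∈ F, a ∈ G) (hτF : IsBasicTrace A F Ω τF) (hτG : IsBasicTrace A G Ω τG)
    {V : Submodule ℂ H} (hV : IsModule F Ω U J τF V) :
    IsModule G Ω U J τG (WW hΩ G V).topologicalClosure := by
  have hJ := hA.modular
  have hVi : RInv hΩ F V := RInv_of hΩ hJ hF.le hV.right
  have hUs : ∀ {B : VonNeumannAlgebra H}, (∀ a : H →L[ℂ] H, conj U a ∈ B ↔ a ∈ B) →
      ∀ a ∈ B, conj U.symm a ∈ B := by
    intro B hB a ha
    rw [← hB, conj_conj]
    exact ha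
  have hUs' : ∀ {B : VonNeumannAlgebra H}, (∀ a : H →L[ℂ] H, conj U a ∈ B ↔ a ∈ B) →
      ∀ a ∈ B, conj U.symm.symm a ∈ B := by
    intro B hB a ha
    exact (hB a).2 ha
  have hU' : U.symm Ω = Ω := by
    conv_lhs => rw [← hA.fixed]
    rw [U.symm_apply_apply]
  have hVU : ∀ v ∈ V, U v ∈ V := by
    intro v hv
    have h1 : U v ∈ ((fun v => U v) '' (V : Set H)) := ⟨v, hv, rfl⟩
    rw [hV.inv] at h1
    exact h1
  have hVU' : ∀ v ∈ V, U.symm v ∈ V := by
    intro v hv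
    have h1 : v ∈ ((fun v => U v) '' (V : Set H)) := by
      rw [hV.inv]
      exact hv
    obtain ⟨y, hy, rfl⟩ := h1
    change U.symm (U y) ∈ V
    rw [U.symm_apply_apply]
    exact hy
  have i1 := U_WW hΩ hG.le hA.fixed (fun a ha => (hA.inv a).2 ha) (fun a ha => (hG.inv a).2 ha)
    (hUs hG.inv) hVU
  have i2 := U_WW hΩ hG.le hU' (hUs hA.inv) (hUs hG.inv) (hUs' hG.inv) hVU'
  refine ⟨(WW hΩ G V).isClosed_topologicalClosure, ?_, ?_, ?_, ?_⟩
  · intro g hg v hv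
    rw [RR_eq_J hΩ hJ (hG.le g hg)]
    exact RInv_closure hΩ (WW_inv hΩ hG.le V) g hg v hv
  · refine Submodule.topologicalClosure_minimal _ ?_ (HH G Ω).isClosed_orthogonal
    rintro _ ⟨y, -, rfl⟩
    exact (orb G Ω).topologicalClosure.sub_starProjection_mem_orthogonal y
  · refine Set.Subset.antisymm ?_ ?_
    · rintro _ ⟨x, hx, rfl⟩
      exact i1 x hx
    · intro x hx
      refine ⟨U.symm x, i2 x hx, ?_⟩
      change U (U.symm x) = x
      rw [U.apply_symm_apply]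
  · set X : H →L[ℂ] H := (1 - ee G Ω) * pr (ext hΩ G V) with hX
    have hE : pr (ext hΩ G V) ∈ basic A G Ω := pr_mem_basic hΩ hJ hG.le (ext_inv hΩ hG.le V)
    have hXM : X ∈ basic A G Ω :=
      mul_mem (sub_mem (one_mem _) (ee_mem_basic hΩ hJ hG.le)) hE
    have hWM : pr (WW hΩ G V).topologicalClosure ∈ basic A G Ω :=
      pr_mem_basic hΩ hJ hG.le (RInv_closure hΩ (WW_inv hΩ hG.le V))
    have hle : pr (WW hΩ G V).topologicalClosure ≤ pr (rg X) := by
      refine pr_mono ?_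
      have h1 : WW hΩ G V ≤ rg X := by
        rintro _ ⟨y, hy, rfl⟩
        refine ⟨y, ?_⟩
        change X y = (1 - ee G Ω) y
        rw [hX, mulA, pr_of_mem' hy]
      intro v hv
      exact Submodule.topologicalClosure_mono h1 hv
    calc τG (pr (WW hΩ G V).topologicalClosure) ≤ τG (pr (rg X)) :=
          tr_mono hτG.isTrace hWM (pr_rg_mem hXM) (pr_nonneg _) hle
      _ ≤ τG (pr (ext hΩ G V)) := by
          refine tr_range hτG.isTrace hXM hE (pr_idem _) (pr_star _) ?_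
          rw [hX, mul_assoc, pr_idem]
      _ ≤ τF (pr V) := key hΩ hJ hF.le hG.le hFG hτF hτG hVi
      _ < ∞ := hV.fin

theorem main {τF τG : (H →L[ℂ] H) → ℝ≥0∞} (hA : IsSystem A Ω U J) (hF : IsSubsystem A U F)
    (hG : IsSubsystem A U G) (hFG : ∀ a ∈ F, a ∈ G) (hτF : IsBasicTrace A F Ω τF)
    (hτG : IsBasicTrace A G Ω τG) (h : IsIsometric F Ω U J τF) : IsIsometric G Ω U J τG := by
  have hΩ : IsTV A Ω := ⟨hA.unit, hA.trace, hA.cyclic⟩
  refine le_antisymm ?_ ?_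
  · refine Submodule.topologicalClosure_minimal _ (sSup_le fun W hW => hW.perp)
      (HH G Ω).isClosed_orthogonal
  · intro x hx
    have h1 : HH F Ω ≤ HH G Ω := by
      refine Submodule.topologicalClosure_mono ?_
      rintro _ ⟨f, hf, rfl⟩
      exact ⟨f, hFG f hf, rfl⟩
    have h2 : x ∈ (HH F Ω)ᗮ := Submodule.orthogonal_le h1 hx
    rw [← h] at h2
    have h3 : (1 - ee G Ω) x = x := by
      have h4 : ee G Ω x = 0 :=
        pr_perp fun v hv => (Submodule.mem_orthogonal _ _).1 hx v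
          ((orb G Ω).le_topologicalClosure hv)
      rw [sub_apply, h4, sub_zero]
      rfl
    rw [← h3]
    refine map_closure (T := (1 - ee G Ω : H →L[ℂ] H)) (fun q hq => ?_) x h2
    have h5 : sSup {V : Submodule ℂ H | IsModule F Ω U J τF V} ≤
        (sSup {V : Submodule ℂ H | IsModule G Ω U J τG V}).topologicalClosure.comap
          ((1 - ee G Ω : H →L[ℂ] H) : H →ₗ[ℂ] H) := by
      refine sSup_le fun V hV v hv => ?_
      have h6 := module_WW hΩ hA hF hG hFG hτF hτG hV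
      have h7 : (WW hΩ G V).topologicalClosure ≤
          sSup {V : Submodule ℂ H | IsModule G Ω U J τG V} := le_sSup h6
      refine Submodule.le_topologicalClosure _ (h7 ?_)
      exact (WW hΩ G V).le_topologicalClosure ⟨v, le_ext hΩ V hv, rfl⟩
    exact h5 hq

end Pool.Agent.Zk50.IE
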